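import Pool.Agent.MP_d8ab80_nt.In.St

namespace Pool.Agent.MP_d8ab80_nt.In

open PowerSeries

variable (p : ℕ) [hp : Fact p.Prime]

/-- The product of the terms of an arithmetic progression of difference seven. -/
def P_Bin (b j : ℕ) : ℕ := ∏ t ∈ Finset.range j, (b + 7 * t)

theorem succ_Bin (b j : ℕ) : P_Bin b (j + 1) = P_Bin b j * (b + 7 * j) := Finset.prod_range_succ _ _

theorem add_Bin (b x y : ℕ) : P_Bin b (x + y) = P_Bin b x * P_Bin (b + 7 * x) y := by
  rw [P_Bin, Finset.prod_range_add]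
  congr 1
  exact Finset.prod_congr rfl fun t _ => by ring

theorem rec_Bin (r : ℤ_[p]⟦X⟧) (h0 : constantCoeff r = 1) (hr : (1 - X) * r ^ 7 = 1) (b j : ℕ) :
    (P_Bin 7 j : ℤ_[p]) * coeff j (r ^ b) = P_Bin b j := by
  have h1 : 7 * (1 - X) * d⁄dX ℤ_[p] r = r := by
    have h := congrArg (d⁄dX ℤ_[p]) hr
    rw [Derivation.leibniz, Derivation.leibniz_pow, map_sub, derivative_X,
      Derivation.map_one_eq_zero] at h
    simp only [smul_eq_mul, nsmul_eq_mul] at h
    push_cast at h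
    linear_combination ((1 - X) * r) * h - (7 * (1 - X) * d⁄dX ℤ_[p] r - r) * hr
  have h2 : 7 * (d⁄dX ℤ_[p] (r ^ b) - X * d⁄dX ℤ_[p] (r ^ b)) = C (b : ℤ_[p]) * r ^ b := by
    rw [Derivation.leibniz_pow, map_natCast]
    simp only [smul_eq_mul, nsmul_eq_mul]
    rcases b with _ | b
    · simp
    · rw [Nat.add_sub_cancel]
      linear_combination (((b + 1 : ℕ) : ℤ_[p]⟦X⟧) * r ^ b) * h1
  induction j with
  | zero => simp [P_Bin, h0]
  | succ j ih =>
    have h3 := congrArg (coeff j) h2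
    have h4 : coeff j (X * d⁄dX ℤ_[p] (r ^ b)) = j * coeff j (r ^ b) := by
      rcases j with _ | j
      · simp
      · rw [coeff_succ_X_mul, coeff_derivative]
        push_cast
        ring
    rw [show (7 : ℤ_[p]⟦X⟧) = C (7 : ℤ_[p]) from (map_ofNat _ 7).symm, coeff_C_mul, coeff_C_mul,
      map_sub, h4, coeff_derivative] at h3
    rw [succ_Bin, succ_Bin]
    push_cast
    linear_combination (P_Bin 7 j : ℤ_[p]) * h3 + ((b : ℤ_[p]) + 7 * j) * ih

theorem desc_Bin {b t : ℕ} (h : p ∣ b + 7 * t) (j : ℕ) :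
    (P_Bin b j : ZMod p) = (-7) ^ j * (t.descFactorial j : ZMod p) := by
  have h1 : (b : ZMod p) + 7 * t = 0 := by exact_mod_cast (ZMod.natCast_eq_zero_iff _ p).2 h
  induction j with
  | zero => simp [P_Bin]
  | succ j ih =>
    rw [succ_Bin, Nat.descFactorial_succ, Nat.cast_mul, ih]
    rcases le_or_gt j t with hj | hj
    · push_cast [Nat.cast_sub hj]
      linear_combination (-7) ^ j * (t.descFactorial j : ZMod p) * h1
    · simp [Nat.descFactorial_eq_zero_iff_lt.2 hj]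

theorem asc_Bin {c : ℕ} (h : (c : ZMod p) = 7) (e : ℕ) :
    (P_Bin c e : ZMod p) = 7 ^ e * (e.factorial : ZMod p) := by
  induction e with
  | zero => simp [P_Bin]
  | succ e ih =>
    rw [succ_Bin, Nat.factorial_succ]
    push_cast
    rw [ih, h]
    ring

theorem fac_Bin {a c : ℕ} (h : a + c + 1 = p) :
    (a.factorial : ZMod p) * c.factorial = (-1) ^ (a + 1) := by
  have h1 := Nat.factorial_mul_descFactorial (n := p - 1) (k := a) (by omega)
  have h2 := congrArg (Nat.cast : ℕ → ZMod p) h1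
  rw [Nat.cast_mul, ZMod.cast_descFactorial (by omega), ZMod.wilsons_lemma,
    show p - 1 - a = c by omega] at h2
  have h3 : ((-1 : ZMod p) ^ a) ^ 2 = 1 := by rw [← pow_mul, mul_comm, pow_mul]; simp
  linear_combination (-1) ^ a * h2 - (a.factorial : ZMod p) * c.factorial * h3

theorem blk_Bin {c c' t : ℕ} (h : c + 7 * t = p * c') (e : ℕ) :
    ∃ u : ℕ, P_Bin c (t + 1 + e) = p * c' * u ∧
      (u : ZMod p) = (-7) ^ t * t.factorial * (7 ^ e * e.factorial) := by
  refine ⟨P_Bin c t * P_Bin (c + 7 * (t + 1)) e, by rw [add_Bin, succ_Bin, h]; ring, ?_⟩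
  rw [Nat.cast_mul, desc_Bin p (h ▸ dvd_mul_right p c'), Nat.descFactorial_self, asc_Bin]
  rw [show c + 7 * (t + 1) = p * c' + 7 by omega]
  simp

theorem seven_Bin (h7 : p ≠ 7) : ¬ p ∣ 7 := fun h =>
  h7 ((Nat.prime_dvd_prime_iff_eq hp.out (by norm_num)).1 h)

theorem blks_Bin (h7 : p ≠ 7) {b b' t : ℕ} (h : b + 7 * t = p * b') (ht : t < p) (j : ℕ) :
    ∃ u : ℕ, P_Bin b (p * j) = p ^ j * P_Bin b' j * u ∧ (u : ZMod p) = (-1) ^ j := by
  induction j with
  | zero => exact ⟨1, by simp [P_Bin], by simp⟩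
  | succ j ih =>
    obtain ⟨u, h1, h2⟩ := ih
    obtain ⟨e, he⟩ : ∃ e, t + 1 + e = p := ⟨p - (t + 1), by omega⟩
    obtain ⟨v, h3, h4⟩ := blk_Bin p (c := b + 7 * (p * j)) (c' := b' + 7 * j) (t := t)
      (by linear_combination h) e
    rw [he] at h3
    refine ⟨u * v, by rw [mul_add, mul_one, add_Bin, h1, h3, succ_Bin]; ring, ?_⟩
    have h5 := fac_Bin p (a := t) (c := e) (by omega)
    have h6 : (7 : ZMod p) ^ (t + e) = 1 := by
      rw [show t + e = p - 1 by omega]
      refine ZMod.pow_card_sub_one_eq_one fun h0 => seven_Bin p h7 ?_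
      exact (ZMod.natCast_eq_zero_iff 7 p).1 (by exact_mod_cast h0)
    have h8 : ((-1 : ZMod p) ^ t) ^ 2 = 1 := by rw [← pow_mul, mul_comm, pow_mul]; simp
    rw [Nat.cast_mul, h2, h4, neg_pow (7 : ZMod p)]
    linear_combination (-1) ^ j * ((-1) ^ t * 7 ^ (t + e) * h5 - 7 ^ (t + e) * h8 - h6)

theorem fac_ne_Bin {a : ℕ} (h : a < p) : (a.factorial : ZMod p) ≠ 0 := fun h0 =>
  absurd (hp.out.dvd_factorial.1 ((ZMod.natCast_eq_zero_iff _ p).1 h0)) (by omega)

theorem cancel_Bin {D N : ℕ} {z : ℤ} {g q : ℤ_[p]} (h : (D : ℤ_[p]) * g = q * N)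
    (hD : (D : ZMod p) ≠ 0) (hz : (N : ZMod p) = D * z) : q * p ∣ g - q * z := by
  have h1 : (p : ℤ) ∣ (N : ℤ) - D * z :=
    (ZMod.intCast_zmod_eq_zero_iff_dvd _ p).1 (by push_cast; rw [hz, sub_self])
  obtain ⟨w, hw⟩ := h1
  have h2 : (N : ℤ_[p]) - D * z = p * w := by exact_mod_cast congrArg (Int.cast : ℤ → ℤ_[p]) hw
  rw [← (unit_nat p fun hd => hD ((ZMod.natCast_eq_zero_iff _ p).2 hd)).dvd_mul_left]
  exact ⟨w, by linear_combination h + q * h2⟩

theorem gen_Bin (r : ℤ_[p]⟦X⟧) (h0 : constantCoeff r = 1) (hr : (1 - X) * r ^ 7 = 1) (h7 : p ≠ 7)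
    {b b' t m e f a : ℕ} {z : ℤ} (h : b + 7 * t = p * b') (h' : p ∣ b' + 7 * (f + (m + 1)))
    (ha : a = t + 1 + e) (hap : a < p) (hm : m < p) (hf : f < p)
    (H : ((-1) ^ (m + 1 + t) * (f + (m + 1)).factorial * t.factorial * e.factorial : ZMod p) =
      z * f.factorial * m.factorial * a.factorial) :
    (p : ℤ_[p]) ^ 2 ∣ coeff (p * m + a) (r ^ b) - p * z := by
  obtain ⟨u, u1, u2⟩ := blks_Bin p h7 h (by omega) m
  obtain ⟨v, v1, v2⟩ := blk_Bin p (c := b + 7 * (p * m)) (c' := b' + 7 * m) (t := t)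
    (by linear_combination h) e
  obtain ⟨w, w1, w2⟩ := blks_Bin p h7 (b := 7) (b' := 7) (t := p - 1) (by omega) (by omega) m
  have h1 := rec_Bin p r h0 hr b (p * m + a)
  rw [add_Bin, add_Bin, u1, w1, ha, v1, ← ha] at h1
  have h70 : (7 : ZMod p) ≠ 0 := fun h0 =>
    seven_Bin p h7 ((ZMod.natCast_eq_zero_iff 7 p).1 (by exact_mod_cast h0))
  have h2 : (P_Bin 7 m * w * P_Bin (7 + 7 * (p * m)) a : ℕ) =
      (7 ^ m * m.factorial * (-1) ^ m * (7 ^ a * a.factorial) : ZMod p) := by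
    rw [Nat.cast_mul, Nat.cast_mul, w2, asc_Bin p (by simp), asc_Bin p (by simp)]
  rw [sq]
  refine cancel_Bin p (D := P_Bin 7 m * w * P_Bin (7 + 7 * (p * m)) a)
    (N := P_Bin b' (m + 1) * u * v) ?_ ?_ ?_
  · refine mul_left_cancel₀ (pow_ne_zero m (Nat.cast_ne_zero.2 hp.out.ne_zero : (p : ℤ_[p]) ≠ 0)) ?_
    rw [succ_Bin]
    push_cast at h1 ⊢
    linear_combination h1
  · rw [h2]
    exact mul_ne_zero (mul_ne_zero (mul_ne_zero (pow_ne_zero _ h70) (fac_ne_Bin p hm))
      (pow_ne_zero _ (by simp))) (mul_ne_zero (pow_ne_zero _ h70) (fac_ne_Bin p hap))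
  · have h3 := congrArg (Nat.cast : ℕ → ZMod p)
      (Nat.factorial_mul_descFactorial (n := f + (m + 1)) (k := m + 1) (by omega))
    rw [Nat.add_sub_cancel, Nat.cast_mul] at h3
    refine mul_left_cancel₀ (fac_ne_Bin p hf) ?_
    rw [h2, Nat.cast_mul, Nat.cast_mul, desc_Bin p h', u2, v2, neg_pow (7 : ZMod p),
      neg_pow (7 : ZMod p)]
    rw [← h3] at H
    have h4 : (7 : ZMod p) ^ a = 7 ^ t * 7 * 7 ^ e := by rw [ha, pow_add, pow_succ]
    rw [h4]
    linear_combination (7 ^ m * 7 ^ t * 7 * 7 ^ e * (-1) ^ m) * H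

theorem bin : BinSt p := by
  refine ⟨fun r h7 h0 hr b t j hj hb => ?_, fun r h0 hr m hm h3 => ?_, fun r h0 hr m hm => ?_,
    fun r h0 hr m hm => ?_⟩
  · have h70 : (7 : ZMod p) ≠ 0 := fun h0 =>
      seven_Bin p h7 ((ZMod.natCast_eq_zero_iff 7 p).1 (by exact_mod_cast h0))
    have := cancel_Bin p (D := P_Bin 7 j) (N := P_Bin b j) (z := (-1) ^ j * t.choose j) (q := 1)
      ((rec_Bin p r h0 hr b j).trans (one_mul _).symm)
      (by rw [asc_Bin p (by simp)]; exact mul_ne_zero (pow_ne_zero _ h70) (fac_ne_Bin p hj))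
      (by
        rw [asc_Bin p (c := 7) (by simp), desc_Bin p hb, Nat.descFactorial_eq_factorial_mul_choose,
          neg_pow (7 : ZMod p)]
        push_cast
        ring)
    simpa using this
  · obtain ⟨k, hk⟩ : Even m := by
      have := hp.out.eq_two_or_odd
      rw [Nat.even_iff]
      omega
    have := gen_Bin p r h0 hr (by omega) (b := 6) (b' := 2) (t := 2 * m) (m := m) (e := m)
      (f := 2 * m) (a := 3 * m + 1) (z := -1) (by omega) ⟨3, by omega⟩ (by omega) (by omega)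
      (by omega) (by omega) (by
        rw [show 2 * m + (m + 1) = 3 * m + 1 by omega,
          Odd.neg_one_pow (n := m + 1 + 2 * m) ⟨3 * k, by omega⟩]
        push_cast
        ring)
    simpa using this
  · obtain ⟨k, hk⟩ : Even m := by
      have := hp.out.eq_two_or_odd
      rw [Nat.even_iff]
      omega
    have := gen_Bin p r h0 hr (by omega) (b := 5) (b' := 1) (t := m) (m := m) (e := 4 * m + 2)
      (f := 2 * m + 1) (a := 5 * m + 3) (z := 1) (by omega) ⟨3, by omega⟩ (by omega) (by omega)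
      (by omega) (by omega) (by
        have a1 := fac_Bin p (a := 3 * m + 2) (c := 4 * m + 2) (by omega)
        have a2 := fac_Bin p (a := 2 * m + 1) (c := 5 * m + 3) (by omega)
        rw [Odd.neg_one_pow ⟨3 * k + 1, by omega⟩] at a1
        rw [Even.neg_one_pow ⟨m + 1, by omega⟩] at a2
        rw [show 2 * m + 1 + (m + 1) = 3 * m + 2 by omega,
          Odd.neg_one_pow (n := m + 1 + m) ⟨m, by omega⟩]
        push_cast
        linear_combination (-(m.factorial : ZMod p)) * a1 - (m.factorial : ZMod p) * a2)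
    simpa using this
  · obtain ⟨k, hk⟩ : Odd m := by
      have := hp.out.eq_two_or_odd
      rw [Nat.odd_iff]
      omega
    have := gen_Bin p r h0 hr (by omega) (b := 3) (b' := 4) (t := 4 * m + 3) (m := m)
      (e := 2 * m + 1) (f := 2 * m + 1) (a := 6 * m + 5) (z := -1) (by omega) ⟨3, by omega⟩
      (by omega) (by omega) (by omega) (by omega) (by
        have a1 := fac_Bin p (a := 3 * m + 2) (c := 4 * m + 3) (by omega)
        have a2 := fac_Bin p (a := m) (c := 6 * m + 5) (by omega)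
        rw [Even.neg_one_pow ⟨3 * k + 3, by omega⟩] at a1
        rw [Even.neg_one_pow ⟨k + 1, by omega⟩] at a2
        rw [show 2 * m + 1 + (m + 1) = 3 * m + 2 by omega,
          Odd.neg_one_pow (n := m + 1 + (4 * m + 3)) ⟨5 * k + 4, by omega⟩]
        push_cast
        linear_combination (-((2 * m + 1).factorial : ZMod p)) * a1 +
          ((2 * m + 1).factorial : ZMod p) * a2)
    simpa using this

end Pool.Agent.MP_d8ab80_nt.In
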