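import Pool.Agent.MP_d8ab80_nt.In.St

namespace Pool.Agent.MP_d8ab80_nt.In

open PowerSeries

theorem th_add_Dec {A : Type*} [CommRing A] (a b : Polynomial A) : th (a + b) = th a + th b := by
  simp only [th, map_add]; ring

theorem th_mon_Dec {A : Type*} [CommRing A] (j : ℕ) (a : A) :
    th (Polynomial.monomial j a) = Polynomial.monomial j (((2 * j + 1 : ℕ) : A) * a) := by
  have h : Polynomial.X * Polynomial.derivative (Polynomial.monomial j a) =
      Polynomial.monomial j (a * j) := by
    cases j with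
    | zero => simp
    | succ j => rw [Polynomial.derivative_monomial_succ, Polynomial.X_mul_monomial]; push_cast; rfl
  rw [th, mul_assoc, h, two_mul, ← map_add, ← map_add]
  congr 1
  push_cast; ring

theorem solve_Dec {A : Type*} [CommRing A] {u : A} (hu : IsUnit u) (r : A) : ∃ z, u * z = r := by
  obtain ⟨v, hv⟩ := hu.exists_right_inv
  exact ⟨v * r, by rw [← mul_assoc, hv, one_mul]⟩

theorem thk_lin_Dec {A : Type*} [CommRing A] (c a b : A) (k : ℕ) :
    thk c k (Polynomial.C a + Polynomial.C b * Polynomial.X) =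
      (Polynomial.C a + 3 * Polynomial.C b * Polynomial.X) * qq c - (k : Polynomial A) *
        Polynomial.X * (Polynomial.C a + Polynomial.C b * Polynomial.X) *
          (2 * Polynomial.C c * Polynomial.X - 4) := by
  have h1 : Polynomial.derivative (qq c) = 2 * Polynomial.C c * Polynomial.X - 4 := by
    simp [qq]; ring
  have h2 : Polynomial.derivative (Polynomial.C a + Polynomial.C b * Polynomial.X) =
      Polynomial.C b := by simp
  rw [thk, th, h1, h2]; ring

variable (p : ℕ) [hp : Fact p.Prime]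

theorem dec : DecSt p := by
  intro n hn M e hM
  have p0 := hp.out.pos
  have h0 : 0 < (e + 1) * p := Nat.mul_pos (Nat.succ_pos e) p0
  rw [Polynomial.as_sum_range' M _ hM]
  refine Finset.sum_induction _ (fun M => ∃ N b : Polynomial ℤ_[p], N.natDegree ≤ e ∧
    b.natDegree < (e + 1) * p ∧ M = Polynomial.X ^ n * Polynomial.expand ℤ_[p] p N + th b)
    ?_ ⟨0, 0, by simp, by simpa using h0, by simp [th]⟩ ?_
  · rintro _ _ ⟨N, b, h1, h2, rfl⟩ ⟨N', b', h1', h2', rfl⟩
    refine ⟨N + N', b + b', (Polynomial.natDegree_add_le _ _).trans (max_le h1 h1'),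
      (Polynomial.natDegree_add_le _ _).trans_lt (max_lt h2 h2'), ?_⟩
    rw [map_add, th_add_Dec]; ring
  · intro j hj
    have hj' := Finset.mem_range.1 hj
    generalize M.coeff j = a
    by_cases hd : p ∣ 2 * j + 1
    · obtain ⟨t, ht⟩ := hd
      have hodd : Odd t := (Nat.odd_mul.1 (ht ▸ (⟨j, rfl⟩ : Odd (2 * j + 1)))).2
      obtain ⟨i, rfl⟩ := hodd
      have e1 : j = n + i * p := by rw [hn] at ht ⊢; nlinarith
      have e2 : i ≤ e := by
        have : i * p < (e + 1) * p := by omega
        exact Nat.lt_succ_iff.1 (lt_of_mul_lt_mul_right this (Nat.zero_le _))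
      refine ⟨Polynomial.monomial i a, 0, (Polynomial.natDegree_monomial_le a).trans e2,
        by simpa using h0, ?_⟩
      rw [Polynomial.expand_monomial, Polynomial.X_pow_mul_monomial, e1, add_comm]
      simp [th]
    · obtain ⟨z, hz⟩ := solve_Dec (unit_nat p hd) a
      refine ⟨0, Polynomial.monomial j z, by simp, (Polynomial.natDegree_monomial_le z).trans_lt hj',
        ?_⟩
      rw [th_mon_Dec, hz]; simp

theorem red : RedSt p := by
  intro c h2 h3 h4
  refine ⟨fun N hN => ?_, fun hc N hN => ?_⟩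
  · have e := Polynomial.as_sum_range_C_mul_X_pow' N (Nat.lt_succ_of_le hN)
    simp only [Finset.sum_range_succ, Finset.sum_range_zero] at e
    generalize N.coeff 0 = n0, N.coeff 1 = n1, N.coeff 2 = n2 at e
    obtain ⟨x, hx⟩ := solve_Dec (h2.mul h4) (n2 + 2 * n1 + c * n0)
    obtain ⟨y, hy⟩ := solve_Dec h2 (-(n1 + 4 * x))
    refine ⟨x, y, n0 - x, ?_⟩
    have a1 := congrArg Polynomial.C hx
    have a2 := congrArg Polynomial.C hy
    have a3 := thk_lin_Dec c (n0 - x) (-y) 1
    simp only [map_mul, map_add, map_sub, map_neg, map_ofNat, neg_mul, ← sub_eq_add_neg] at a1 a2 a3 ⊢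
    rw [a3, e, qq]
    push_cast
    linear_combination (-Polynomial.X ^ 2) * a1 + (Polynomial.X - 2 * Polynomial.X ^ 2) * a2
  · have e := Polynomial.as_sum_range_C_mul_X_pow' N (Nat.lt_succ_of_le hN)
    simp only [Finset.sum_range_succ, Finset.sum_range_zero] at e
    generalize N.coeff 0 = n0, N.coeff 1 = n1, N.coeff 2 = n2, N.coeff 3 = n3, N.coeff 4 = n4 at e
    obtain ⟨a2, f1⟩ := solve_Dec hc n4
    obtain ⟨s, f2⟩ := solve_Dec hc (n3 + 4 * a2)
    obtain ⟨h0, f3⟩ := solve_Dec ((h2.mul h3).mul h4) (-(n2 - a2 + 2 * (s + n1 + 4 * n0) - c * n0))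
    obtain ⟨a1, f4⟩ := solve_Dec h2 (s + n1 + 4 * n0 - 12 * h0)
    obtain ⟨h1, f5⟩ := solve_Dec h3 (a1 - s)
    refine ⟨Polynomial.C a2 * Polynomial.X ^ 2 + Polynomial.C a1 * Polynomial.X +
      Polynomial.C (n0 - h0), Polynomial.C h0 + Polynomial.C h1 * Polynomial.X,
      Polynomial.natDegree_quadratic_le, ?_⟩
    have g1 := congrArg Polynomial.C f1
    have g2 := congrArg Polynomial.C f2
    have g3 := congrArg Polynomial.C f3
    have g4 := congrArg Polynomial.C f4
    have g5 := congrArg Polynomial.C f5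
    simp only [map_mul, map_add, map_sub, map_neg, map_ofNat] at g1 g2 g3 g4 g5 ⊢
    rw [thk_lin_Dec, e, qq]
    push_cast
    linear_combination (-Polynomial.X ^ 4) * g1 - Polynomial.X ^ 3 * g2 + Polynomial.X ^ 2 * g3 +
      (2 * Polynomial.X ^ 2 - Polynomial.X) * g4 +
      (Polynomial.C c * Polynomial.X ^ 3 - Polynomial.X) * g5

end Pool.Agent.MP_d8ab80_nt.In
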