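import Pool.Agent.MP_d8ab80_nt.In.Kl

/-! The end of the proof. -/

namespace Pool.Agent.MP_d8ab80_nt.In

open PowerSeries

theorem co_Fin {A : Type*} [CommRing A] (f : A⟦X⟧) (a b J r : ℕ) (ha : a < 7) (hr : r < 7) :
    coeff (7 * J + r) (X ^ a * expand 7 (by omega) f ^ b) =
      if r = a then coeff J (f ^ b) else 0 := by
  rw [← map_pow, coeff_X_pow_mul', coeff_expand]
  by_cases h : r = a
  · rw [if_pos h, if_pos (by omega), if_pos (by omega), show (7 * J + r - a) / 7 = J by omega]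
  · rw [if_neg h]
    split_ifs with h1 h2
    · omega
    · rfl
    · rfl

theorem om_Fin {A : Type*} [CommRing A] (f : A⟦X⟧) {N : ℕ} (J r : ℕ) (hN : N = 7 * J + r)
    (hr : r < 7) :
    coeff N (expand 7 (by omega) f ^ 3 + X * expand 7 (by omega) f ^ 6 -
      X ^ 3 * expand 7 (by omega) f ^ 5) =
      (if r = 0 then coeff J (f ^ 3) else 0) + (if r = 1 then coeff J (f ^ 6) else 0) -
        if r = 3 then coeff J (f ^ 5) else 0 := by
  rw [hN, ← co_Fin f 0 3 J r (by omega) hr, ← co_Fin f 1 6 J r (by omega) hr,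
    ← co_Fin f 3 5 J r (by omega) hr, pow_zero, one_mul, pow_one, map_sub, map_add]

theorem ee_Fin {A : Type*} [CommRing A] (f : A⟦X⟧) {N : ℕ} (J r : ℕ) (hN : N = 7 * J + r)
    (hr : r < 7) :
    coeff N (expand 7 (by omega) f ^ 4 + X ^ 4 * expand 7 (by omega) f ^ 2 +
      X ^ 6 * expand 7 (by omega) f ^ 8) =
      (if r = 0 then coeff J (f ^ 4) else 0) + (if r = 4 then coeff J (f ^ 2) else 0) +
        if r = 6 then coeff J (f ^ 8) else 0 := by
  rw [hN, ← co_Fin f 0 4 J r (by omega) hr, ← co_Fin f 4 2 J r (by omega) hr,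
    ← co_Fin f 6 8 J r (by omega) hr, pow_zero, one_mul, map_add, map_add]

variable (p : ℕ) [hp : Fact p.Prime]

/-- The five facts about the coefficients in the parameter of the Klein quartic. -/
theorem facts_Fin (hb : BinSt p) {n : ℕ} (hn : p = 2 * n + 1) (h3 : 3 < p)
    (h7 : p % 7 = 3 ∨ p % 7 = 5 ∨ p % 7 = 6) {f ω E : ℤ_[p]⟦X⟧} (f0 : constantCoeff f = 1)
    (hf : (1 - X) * f ^ 7 = 1)
    (hω : ω = expand 7 (by omega) f ^ 3 + X * expand 7 (by omega) f ^ 6 -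
      X ^ 3 * expand 7 (by omega) f ^ 5)
    (hE : E = expand 7 (by omega) f ^ 4 + X ^ 4 * expand 7 (by omega) f ^ 2 +
      X ^ 6 * expand 7 (by omega) f ^ 8) :
    coeff (2 * n) ω = 0 ∧ coeff (p * (p * (2 * n) + 2 * n) + 2 * n) ω = 0 ∧
      coeff (p * (2 * n) + 2 * n + 2) E = 0 ∧
      (p : ℤ_[p]) ^ 2 ∣ coeff (p * (2 * n) + 2 * n) ω + p ∧
      (p : ℤ_[p]) ∣ coeff (2 * n + 2) E - (((3 * p - 2) / 7).choose ((p + 1) / 7) : ℕ) := by
  have hp7 : p ≠ 7 := by omega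
  obtain ⟨m, hm⟩ : ∃ m, m = p / 7 := ⟨_, rfl⟩
  rw [hω, hE]
  rcases h7 with h | h | h
  · have e : p = 7 * m + 3 := by omega
    have e0 : 2 * n = 7 * m + 2 := by omega
    have e1 : p * (2 * n) + 2 * n = 7 * (p * m + (3 * m + 1)) + 1 := by rw [e0, e]; ring
    have b1 := hb.one f hp7 f0 hf 2 (3 * m + 1) m (by omega) ⟨3, by omega⟩
    rw [Even.neg_one_pow ⟨m / 2, by omega⟩, one_mul] at b1
    rw [om_Fin f m 2 e0 (by omega), om_Fin f _ 1 e1 (by omega),
      om_Fin f (p * (p * m + (3 * m + 1)) + 2 * m) 5 (by rw [e1, e0, e]; ring) (by omega),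
      ee_Fin f (p * m + (3 * m + 1)) 3 (by omega) (by omega), ee_Fin f m 4 (by omega) (by omega),
      show (3 * p - 2) / 7 = 3 * m + 1 by omega, show (p + 1) / 7 = m by omega]
    exact ⟨by simp, by simp, by simp, by simpa using hb.three f f0 hf m e h3, by simpa using b1⟩
  · have e : p = 7 * m + 5 := by omega
    have e0 : 2 * n = 7 * m + 4 := by omega
    have e1 : p * (2 * n) + 2 * n = 7 * (p * m + (5 * m + 3)) + 3 := by rw [e0, e]; ring
    have b1 := hb.one f hp7 f0 hf 8 (3 * m + 1) m (by omega) ⟨3, by omega⟩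
    rw [Even.neg_one_pow ⟨m / 2, by omega⟩, one_mul] at b1
    have b2 := (hb.five f f0 hf m e).neg_right
    rw [neg_sub, sub_eq_neg_add] at b2
    rw [om_Fin f m 4 e0 (by omega), om_Fin f _ 3 e1 (by omega),
      om_Fin f (p * (p * m + (5 * m + 3)) + 4 * m + 2) 5 (by rw [e1, e0, e]; ring) (by omega),
      ee_Fin f (p * m + (5 * m + 3)) 5 (by omega) (by omega), ee_Fin f m 6 (by omega) (by omega),
      show (3 * p - 2) / 7 = 3 * m + 1 by omega, show (p + 1) / 7 = m by omega]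
    exact ⟨by simp, by simp, by simp, by simpa using b2, by simpa using b1⟩
  · have e : p = 7 * m + 6 := by omega
    have e0 : 2 * n = 7 * m + 5 := by omega
    have e1 : p * (2 * n) + 2 * n = 7 * (p * m + (6 * m + 5)) + 0 := by rw [e0, e]; ring
    have b1 := hb.one f hp7 f0 hf 4 (3 * m + 2) (m + 1) (by omega) ⟨3, by omega⟩
    rw [Even.neg_one_pow ⟨(m + 1) / 2, by omega⟩, one_mul] at b1
    rw [om_Fin f m 5 e0 (by omega), om_Fin f _ 0 e1 (by omega),
      om_Fin f (p * (p * m + (6 * m + 5)) + m) 5 (by rw [e1, e0]; ring) (by omega),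
      ee_Fin f (p * m + (6 * m + 5)) 2 (by omega) (by omega),
      ee_Fin f (m + 1) 0 (by omega) (by omega),
      show (3 * p - 2) / 7 = 3 * m + 2 by omega, show (p + 1) / 7 = m + 1 by omega]
    exact ⟨by simp, by simp, by simp, by simpa using hb.six f f0 hf m e, by simpa using b1⟩

/-- The twisting character. -/
theorem chi_Fin {n : ℕ} (hn : p = 2 * n + 1) (h3 : 3 < p) (h7 : jacobiSym p 7 = -1) {d : ℤ_[p]}
    (hd : 16 * d = -21) : (p : ℤ_[p]) ∣ d ^ n - -((-1) ^ n * (jacobiSym p 3 : ℤ)) := by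
  rw [← toZMod_eq_zero]
  have e1 := legendreSym.eq_pow p (-7)
  have e3 := jac_odd (w := -7) (p := p) (by norm_num) (by omega)
  rw [show (-7 : ℤ).natAbs = 7 from rfl, h7, show s4 (-7) = 1 from rfl, ite_self] at e3
  rw [jacobiSym.legendreSym.to_jacobiSym, show p / 2 = n by omega, e3] at e1
  have e2 := legendreSym.eq_pow p 3
  rw [jacobiSym.legendreSym.to_jacobiSym, show p / 2 = n by omega] at e2
  have s3 := congrArg (Int.cast : ℤ → ZMod p) (sign_three hp.out hn (by omega))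
  have hJ : jacobiSym p 3 ^ 2 = 1 := by
    apply jacobiSym.sq_one
    exact_mod_cast (Nat.coprime_primes hp.out Nat.prime_three).2 (by omega)
  have hJ' := congrArg (Int.cast : ℤ → ZMod p) hJ
  have two := two_ne_zero_zmod hn
  have f2 : ((4 : ZMod p) ^ 2) ^ n = 1 := by
    rw [← pow_mul, show 2 * n = p - 1 by omega]
    refine ZMod.pow_card_sub_one_eq_one ?_
    rw [show (4 : ZMod p) = 2 * 2 by norm_num]; exact mul_ne_zero two two
  have f3 : (4 : ZMod p) ^ 2 * PadicInt.toZMod d = -7 * 3 := by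
    have := congrArg PadicInt.toZMod hd
    simp only [map_mul, map_neg, map_ofNat] at this
    linear_combination this
  have f4 := congrArg (· ^ n) f3
  simp only [mul_pow, f2, one_mul] at f4
  have hn1 : ((-1 : ZMod p) ^ n) ^ 2 = 1 := by rw [← pow_mul, mul_comm, pow_mul]; simp
  push_cast at e1 e2 s3 hJ'
  simp only [map_sub, map_neg, map_mul, map_pow, map_one, map_intCast]
  rw [f4, ← e1, ← e2]
  linear_combination (-(-1) ^ n * (jacobiSym p 3 : ZMod p)) * s3 +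
    (jacobiSym 3 p : ZMod p) * ((jacobiSym p 3 : ZMod p) ^ 2 * hn1 + hJ')

theorem fin (h1 : RelSt p) (h2 : PCSt p) (h4 : USt p) (hb : BinSt p) (h3 : 3 < p)
    (h7 : jacobiSym p 7 = -1) {i : ℤ_[p]} (hi : 63 * i = 1) :
    (p : ℤ_[p]) ^ 2 ∣
      3 * (((3 * p - 2) / 7).choose ((p + 1) / 7) : ℕ) *
        ∑ k ∈ Finset.range p, ((k.centralBinom : ℤ_[p]) * (2 * k).centralBinom) * i ^ k +
      2 * (jacobiSym p 3 : ℤ) * p := by
  obtain ⟨n, hn⟩ : Odd p := hp.out.odd_of_ne_two (by omega)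
  have hp0 : (p : ℤ_[p]) ≠ 0 := by exact_mod_cast hp.out.ne_zero
  have hm7 : p % 7 = 3 ∨ p % 7 = 5 ∨ p % 7 = 6 := by
    rw [jacobiSym.mod_left, show ((p : ℤ) % (7 : ℕ)) = (p % 7 : ℕ) by push_cast; rfl] at h7
    have : p % 7 < 7 := Nat.mod_lt _ (by norm_num)
    generalize p % 7 = a at *
    interval_cases a <;> first | omega | (revert h7; norm_num)
  have n2 : ¬ p ∣ 2 := fun h => by have := Nat.le_of_dvd two_pos h; omega
  have n7 : ¬ p ∣ 7 := fun h => by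
    have := (Nat.prime_dvd_prime_iff_eq hp.out (by norm_num)).1 h; omega
  have u2 : IsUnit (2 : ℤ_[p]) := by exact_mod_cast unit_nat p n2
  have ui : IsUnit i := IsUnit.of_mul_eq_one_right _ hi
  obtain ⟨t, ht⟩ := u2.exists_right_inv
  obtain ⟨d, hd⟩ : ∃ d : ℤ_[p], 16 * d = -21 :=
    ⟨-21 * t ^ 4, by linear_combination (-21 * ((2 * t) ^ 3 + (2 * t) ^ 2 + 2 * t + 1)) * ht⟩
  have hc : 3 * (256 * i * d) = -16 := by linear_combination 48 * i * hd - 16 * hi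
  obtain ⟨α, β, b, db, hR⟩ := h1 n (256 * i) hn h3
    (by rw [show (256 : ℤ_[p]) = 2 ^ 8 by norm_num]; exact (u2.pow 8).mul ui)
    (by rw [show 256 * i - 4 = 2 ^ 2 * i by linear_combination 4 * hi]; exact (u2.pow 2).mul ui)
  obtain ⟨f, f0, hf⟩ := exists_root_inv p n7 (1 - X) (by simp)
  obtain ⟨s, iw, Y, s0, hiw, iw0, hω, hE⟩ := klein p n2 hd hc (r := expand 7 (by omega) f)
    (by simp [f0]) (by simpa using congrArg (expand 7 (by omega)) hf)
  have x0 : constantCoeff (C d * s ^ 2) = 0 := by simp [s0]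
  obtain ⟨IW, IW0, hIW⟩ := exists_root_inv p n2
    (Polynomial.aeval ((C d * s ^ 2) ^ p) (qq (256 * i)))
    (by rw [cc_aeval (by rw [map_pow, x0, zero_pow hp.out.ne_zero])]; simp [qq])
  have P : Par p (256 * i) s (C d * s ^ 2) iw IW :=
    ⟨x0, by rw [d_mul, d_sq, derivative_C]; ring, hiw, iw0, hIW, IW0⟩
  obtain ⟨G, K, hG⟩ := hR _ _ _ _ P
  obtain ⟨z0, z3, zE, ⟨z, hz⟩, ⟨y, hy⟩⟩ := facts_Fin p hb hn h3 hm7 f0 hf hω rfl
  rw [← hω] at hE
  obtain ⟨χ, hχ⟩ : ∃ χ : ℤ_[p], χ = -((-1) ^ n * (jacobiSym p 3 : ℤ)) := ⟨_, rfl⟩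
  have hn1 : ((-1 : ℤ_[p]) ^ n) ^ 2 = 1 := by rw [← pow_mul, mul_comm, pow_mul]; simp
  have hJ : jacobiSym p 3 ^ 2 = 1 := by
    apply jacobiSym.sq_one
    exact_mod_cast (Nat.coprime_primes hp.out Nat.prime_three).2 (by omega)
  have χ2 : χ ^ 2 = 1 := by
    rw [hχ, neg_sq, mul_pow, hn1, one_mul]
    exact_mod_cast congrArg (Int.cast : ℤ → ℤ_[p]) hJ
  have pc := h2 n (256 * i) d χ s iw IW hn s0 χ2 (hχ ▸ chi_Fin p hn h3 h7 hd) P
  generalize expand 7 (by omega) f ^ 4 + X ^ 4 * expand 7 (by omega) f ^ 2 +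
    X ^ 6 * expand 7 (by omega) f ^ 8 = E at hE zE hy
  have key : ∀ k : ℕ, ∃ u v : ℤ_[p], 256 * i * d * coeff (p * k + 2 * n) (d⁄dX ℤ_[p] s * iw) =
      χ * ((256 * i * d * α - 2 * p * β) * coeff k (d⁄dX ℤ_[p] s * iw) + p * β * coeff (k + 2) E) +
        p * (k + 1) * u + p ^ 3 * v := by
    intro k
    obtain ⟨u₀, a₀⟩ := pc 0 k
    obtain ⟨u₁, a₁⟩ := pc 1 k
    rw [zero_mul, add_zero, pow_zero, mul_one] at a₀
    rw [one_mul, pow_one] at a₁
    have a₂ := congrArg (coeff (p * k + 2 * n)) hG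
    rw [map_add, map_add, map_add, coeff_C_mul, coeff_C_mul, coeff_C_mul, coeff_derivative] at a₂
    have a₃ := congrArg (coeff (k + 2)) hE
    rw [coeff_C_mul, coeff_X_pow_mul, map_add, map_sub, map_sub, mul_assoc 2, two_mul, map_add,
      coeff_X_pow_mul, coeff_succ_X_mul, coeff_derivative] at a₃
    have a₄ : (((p * k + 2 * n : ℕ) : ℤ_[p]) + 1) = p * (k + 1) := by
      rw [show p * k + 2 * n = p * (k + 1) - 1 by rw [mul_add]; omega]
      have : 1 ≤ p * (k + 1) := Nat.mul_pos hp.out.pos (by omega)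
      push_cast [Nat.cast_sub this]
      ring
    rw [a₄] at a₂
    push_cast at a₃
    generalize coeff (p * k + 2 * n + 1) (s * Polynomial.aeval (C d * s ^ 2) b * IW -
      C β * (s * (C d * s ^ 2) ^ (n + p) * IW) + C (p : ℤ_[p]) * G) = g at a₂
    exact ⟨256 * i * d * (α * u₀ + p * β * u₁ + g) + χ * β * coeff (k + 1 + 1) Y,
      256 * i * d * coeff (p * k + 2 * n) K, by
      linear_combination 256 * i * d * (a₂ + α * a₀ + p * β * a₁) + χ * p * β * a₃⟩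
  have c1 : ((2 * n : ℕ) : ℤ_[p]) + 1 = p := by exact_mod_cast hn.symm
  have c2 : ((p * (2 * n) + 2 * n : ℕ) : ℤ_[p]) + 1 = p ^ 2 := by
    rw [Nat.cast_add, Nat.cast_mul]; linear_combination (p + 1) * c1
  obtain ⟨u₁, v₁, k₁⟩ := key (2 * n)
  obtain ⟨u₂, v₂, k₂⟩ := key (p * (2 * n) + 2 * n)
  rw [c1, z0] at k₁
  rw [c2, z3, zE] at k₂
  have uz : IsUnit (1 - (p : ℤ_[p]) * z) := by
    rw [← isUnit_map_iff PadicInt.toZMod]; simp
  have g1 : (p : ℤ_[p]) ^ 2 ∣ 256 * i * d * α - 2 * p * β := by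
    rw [← uz.dvd_mul_right]
    refine ⟨χ * (u₂ + v₂), mul_left_cancel₀ hp0 ?_⟩
    linear_combination χ * k₂ + (256 * i * d * α - 2 * p * β) * hz +
      (256 * i * d * α - 2 * p * β) * coeff (p * (2 * n) + 2 * n) (d⁄dX ℤ_[p] s * iw) * χ2
  obtain ⟨w, hw⟩ := g1
  have hα : (p : ℤ_[p]) ∣ α := ⟨-(3 * t ^ 4 * (p * w + 2 * β)), by
    linear_combination (-3 * t ^ 4) * hw + t ^ 4 * α * hc -
      α * ((2 * t) ^ 3 + (2 * t) ^ 2 + 2 * t + 1) * ht⟩
  obtain ⟨a, ha⟩ := h4 n i α β b hn h3 hi db hα hR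
  rw [← (u2.pow 6).dvd_mul_left]
  generalize ∑ k ∈ Finset.range p, ((k.centralBinom : ℤ_[p]) * (2 * k).centralBinom) * i ^ k = S
    at ha ⊢
  generalize ((((3 * p - 2) / 7).choose ((p + 1) / 7) : ℕ) : ℤ_[p]) = B at hy ⊢
  have hJχ : ((jacobiSym p 3 : ℤ) : ℤ_[p]) = -((-1) ^ n * χ) := by
    rw [hχ]; linear_combination (-((jacobiSym p 3 : ℤ) : ℤ_[p])) * hn1
  rw [hJχ]
  generalize (-1 : ℤ_[p]) ^ n = ε at ha ⊢
  have g2 : 3 * p * β * B = 16 * χ * p + p ^ 2 * (-16 * χ * z - 3 * χ * (u₁ + p * v₁) - 3 * β * y) := by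
    linear_combination (-3 * χ) * k₁ + χ * coeff (p * (2 * n) + 2 * n) (d⁄dX ℤ_[p] s * iw) * hc -
      16 * χ * hz - 3 * p * β * hy - 3 * p * β * coeff (2 * n + 2) E * χ2
  have g3 : 8 * α = -3 * p * β - 3 * t * p ^ 2 * w := by
    linear_combination (-3 * t) * hw + t * α * hc + (-8 * α - 3 * p * β) * ht
  exact ⟨48 * B * a - 72 * ε * B * t * w +
    8 * ε * (-16 * χ * z - 3 * χ * (u₁ + p * v₁) - 3 * β * y), by
    linear_combination 48 * B * ha + 24 * ε * B * g3 + 8 * ε * g2⟩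

end Pool.Agent.MP_d8ab80_nt.In
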