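import Pool.Agent.MP_d8ab80_nt.In.St

/-! The curve as a quotient of the Klein quartic, in the parameter at a cusp. -/

namespace Pool.Agent.MP_d8ab80_nt.In

open PowerSeries

theorem k1_Kl {B : Type*} [CommRing B] (T r : B) (h : (1 - T ^ 7) * r ^ 7 = 1) :
    (3 * r - r ^ 8 - T * r ^ 4 - T ^ 5 * r ^ 2 - 2 * T ^ 5 * r ^ 9 - 2 * T ^ 8 * r ^ 4) ^ 2 =
      (r ^ 3 + T * r ^ 6 - T ^ 3 * r ^ 5) ^ 2 *
        (4 * (r - T * (1 - T ^ 7) * r ^ 4 - T ^ 2 + T ^ 5 * r ^ 2) ^ 3 +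
          21 * (r - T * (1 - T ^ 7) * r ^ 4 - T ^ 2 + T ^ 5 * r ^ 2) ^ 2 * T ^ 2 +
          28 * (r - T * (1 - T ^ 7) * r ^ 4 - T ^ 2 + T ^ 5 * r ^ 2) * T ^ 4) := by
  linear_combination (- 9 * r ^ 2 + r ^ 9 + 6 * T * r ^ 5 + 8 * T ^ 2 * r ^ 8 - 8 * T ^ 3 * r ^ 11
    - 2 * T ^ 4 * r ^ 7 - 4 * T ^ 4 * r ^ 14 + 6 * T ^ 5 * r ^ 3 + 8 * T ^ 5 * r ^ 10
    + 4 * T ^ 5 * r ^ 17 - 13 * T ^ 6 * r ^ 6 + 7 * T ^ 6 * r ^ 13 + 9 * T ^ 7 * r ^ 9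
    - 8 * T ^ 7 * r ^ 16 + 12 * T ^ 8 * r ^ 5 + 6 * T ^ 8 * r ^ 12 + 16 * T ^ 9 * r ^ 8
    - 8 * T ^ 9 * r ^ 15 - T ^ 10 * r ^ 4 + 5 * T ^ 10 * r ^ 11 + 20 * T ^ 11 * r ^ 14
    - 6 * T ^ 12 * r ^ 10 - 8 * T ^ 12 * r ^ 17 - 4 * T ^ 13 * r ^ 6 + T ^ 13 * r ^ 13
    + 16 * T ^ 14 * r ^ 16 - 6 * T ^ 15 * r ^ 12 - 4 * T ^ 16 * r ^ 8 + 4 * T ^ 16 * r ^ 15
    + T ^ 17 * r ^ 11 - 16 * T ^ 18 * r ^ 14 + 4 * T ^ 19 * r ^ 17 + 4 * T ^ 20 * r ^ 13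
    - 8 * T ^ 21 * r ^ 16 + 4 * T ^ 23 * r ^ 15) * h

variable (p : ℕ) [hp : Fact p.Prime]

theorem cancel_Kl {k : ℕ} (hk : k ≠ 0) {f g : ℤ_[p]⟦X⟧} (h : (k : ℤ_[p]⟦X⟧) * f = k * g) :
    f = g := by
  refine mul_left_cancel₀ ?_ h
  rw [← map_natCast (C (R := ℤ_[p]))]
  exact C_ne_zero' (by exact_mod_cast hk)

theorem klein (h2 : ¬ p ∣ 2) {c d : ℤ_[p]} (hd : 16 * d = -21) (hc : 3 * (c * d) = -16)
    {r : ℤ_[p]⟦X⟧} (r0 : constantCoeff r = 1) (hr : (1 - X ^ 7) * r ^ 7 = 1) :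
    ∃ s iw Y : ℤ_[p]⟦X⟧, constantCoeff s = 0 ∧
      Polynomial.aeval (C d * s ^ 2) (qq c) * iw ^ 2 = 1 ∧ constantCoeff iw = 1 ∧
      d⁄dX ℤ_[p] s * iw = r ^ 3 + X * r ^ 6 - X ^ 3 * r ^ 5 ∧
      C (c * d) * (X ^ 2 * (d⁄dX ℤ_[p] s * (C d * s ^ 2) * iw)) =
        r ^ 4 + X ^ 4 * r ^ 2 + X ^ 6 * r ^ 8 - 2 * X ^ 2 * (r ^ 3 + X * r ^ 6 - X ^ 3 * r ^ 5) +
          (X * d⁄dX ℤ_[p] Y - Y) := by
  have dr : d⁄dX ℤ_[p] r = X ^ 6 * r ^ 8 := by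
    have := congrArg (d⁄dX ℤ_[p]) hr
    rw [d_mul, map_sub, d_pow r 6, d_pow X 6, derivative_one, derivative_X] at this
    refine cancel_Kl p (k := 7) (by norm_num) ?_
    push_cast at this ⊢
    linear_combination r * this - 7 * d⁄dX ℤ_[p] r * hr
  obtain ⟨W, hW⟩ : ∃ W : ℤ_[p]⟦X⟧, W = r - X * (1 - X ^ 7) * r ^ 4 - X ^ 2 + X ^ 5 * r ^ 2 := ⟨_, rfl⟩
  obtain ⟨ω, hω⟩ : ∃ ω : ℤ_[p]⟦X⟧, ω = r ^ 3 + X * r ^ 6 - X ^ 3 * r ^ 5 := ⟨_, rfl⟩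
  have k1 : (2 * W - X * d⁄dX ℤ_[p] W) ^ 2 =
      ω ^ 2 * (4 * W ^ 3 + 21 * W ^ 2 * X ^ 2 + 28 * W * X ^ 4) := by
    rw [hω, hW, ← k1_Kl X r hr]
    congr 1
    simp only [map_add, map_sub, d_mul, d_pow r 3, d_pow X 6, d_pow X 4, d_sq, derivative_one,
      derivative_X, dr]
    push_cast
    linear_combination (r + 2 * X ^ 5 * r ^ 2 + 4 * X ^ 8 * r ^ 4) * hr
  have k2 : ω * W = r ^ 4 + X ^ 4 * r ^ 2 + X ^ 6 * r ^ 8 - 2 * X ^ 2 * ω := by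
    rw [hω, hW]
    linear_combination (-X ^ 2 * r ^ 3 + X ^ 4 * r ^ 2) * hr
  rw [← hω, ← k2]
  obtain ⟨σ, σ0, hσ⟩ := exists_root_inv p h2 W (by simp [hW, r0])
  have dσ : 2 * d⁄dX ℤ_[p] σ = -(d⁄dX ℤ_[p] W * σ ^ 3) := by
    have := congrArg (d⁄dX ℤ_[p]) hσ
    rw [d_mul, d_sq, derivative_one] at this
    linear_combination σ * this - 2 * d⁄dX ℤ_[p] σ * hσ
  obtain ⟨s, hs⟩ : ∃ s : ℤ_[p]⟦X⟧, s = X * σ := ⟨_, rfl⟩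
  have ds : d⁄dX ℤ_[p] s = σ + X * d⁄dX ℤ_[p] σ := by rw [hs, d_mul, derivative_X, one_mul]
  have hd' : 16 * C d = (-21 : ℤ_[p]⟦X⟧) := by
    have := congrArg (C (R := ℤ_[p])) hd
    simpa only [map_mul, map_neg, map_ofNat] using this
  have hc' : 3 * (C c * C d) = (-16 : ℤ_[p]⟦X⟧) := by
    have := congrArg (C (R := ℤ_[p])) hc
    simpa only [map_mul, map_neg, map_ofNat] using this
  have h7 : C c * C d ^ 2 = (7 : ℤ_[p]⟦X⟧) := by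
    refine cancel_Kl p (k := 3) (by norm_num) ?_
    push_cast
    linear_combination C d * hc' - hd'
  obtain ⟨q, hq⟩ : ∃ q : ℤ_[p]⟦X⟧, q = 1 - 4 * (C d * s ^ 2) + 7 * s ^ 4 := ⟨_, rfl⟩
  have e1 : d⁄dX ℤ_[p] s ^ 2 = ω ^ 2 * q := by
    refine cancel_Kl p (k := 4) (by norm_num) ?_
    have e2 : 2 * d⁄dX ℤ_[p] s = σ ^ 3 * (2 * W - X * d⁄dX ℤ_[p] W) := by
      rw [ds]
      linear_combination X * dσ - 2 * σ * hσ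
    have e3 : σ ^ 6 * (4 * W ^ 3 + 21 * W ^ 2 * X ^ 2 + 28 * W * X ^ 4) = 4 * q := by
      rw [hq, hs]
      linear_combination (4 * ((W * σ ^ 2) ^ 2 + W * σ ^ 2 + 1) +
        21 * X ^ 2 * σ ^ 2 * (W * σ ^ 2 + 1) + 28 * X ^ 4 * σ ^ 4) * hσ + (X * σ) ^ 2 * hd'
    push_cast
    linear_combination (2 * d⁄dX ℤ_[p] s + σ ^ 3 * (2 * W - X * d⁄dX ℤ_[p] W)) * e2 +
      σ ^ 6 * k1 + ω ^ 2 * e3
  obtain ⟨j, hj⟩ := exists_inv (f := d⁄dX ℤ_[p] s) (by simp [ds, σ0])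
  have j0 : constantCoeff j = 1 := by
    have := congrArg constantCoeff hj
    simpa [ds, σ0] using this
  have hi : q * (ω * j) ^ 2 = 1 := by
    linear_combination (-j ^ 2) * e1 + (j * d⁄dX ℤ_[p] s + 1) * hj
  have hsi : d⁄dX ℤ_[p] s * (ω * j) = ω := by linear_combination ω * hj
  generalize hiw : ω * j = iw at hi hsi
  have iw0 : constantCoeff iw = 1 := by simp [← hiw, hω, r0, j0]
  refine ⟨s, iw, q * iw * σ * W, by simp [hs], ?_, iw0, hsi, ?_⟩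
  · rw [aeval_qq]
    linear_combination hi - iw ^ 2 * hq + (s ^ 4 * iw ^ 2) * h7
  · have dq : d⁄dX ℤ_[p] q = (-8 * C d * s + 28 * s ^ 3) * d⁄dX ℤ_[p] s := by
      simp only [hq, map_add, map_sub, d_mul, d_sq, d_four, derivative_one, derivative_C, d_ofNat]
      ring
    have diw := congrArg (d⁄dX ℤ_[p]) hi
    rw [d_mul, d_sq, derivative_one] at diw
    have dw : d⁄dX ℤ_[p] (q * iw) = (-4 * C d * s + 14 * s ^ 3) * ω := by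
      refine cancel_Kl p (k := 2) (by norm_num) ?_
      rw [d_mul, ← hsi]
      push_cast
      linear_combination q * iw * diw + iw * dq - (d⁄dX ℤ_[p] q * iw + 2 * q * d⁄dX ℤ_[p] iw) * hi
    have dτ : d⁄dX ℤ_[p] (σ * W) = -(d⁄dX ℤ_[p] σ * W) := by
      refine cancel_Kl p (k := 2) (by norm_num) ?_
      rw [d_mul]
      push_cast
      linear_combination 2 * W * dσ - 2 * σ * d⁄dX ℤ_[p] W * hσ
    have e4 : q * iw * (σ + X * d⁄dX ℤ_[p] σ) = q * ω := by rw [← ds, ← hsi]; ring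
    rw [mul_assoc (q * iw), d_mul (q * iw), dw, dτ, map_mul,
      show d⁄dX ℤ_[p] s * (C d * s ^ 2) * iw = C d * s ^ 2 * ω by rw [← hsi]; ring]
    have e5 : q * W = W - 4 * C d * X ^ 2 + 7 * X ^ 2 * s ^ 2 := by
      rw [hq, hs]
      linear_combination (-4 * C d * X ^ 2 + 7 * X ^ 4 * σ ^ 2) * hσ
    have e6 : s * (σ * W) = X := by rw [hs]; linear_combination X * hσ
    linear_combination (X ^ 2 * s ^ 2 * ω) * h7 + W * e4 + ω * e5 -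
      (X * ω * (-4 * C d + 14 * s ^ 2)) * e6

end Pool.Agent.MP_d8ab80_nt.In
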