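import Pool.Agent.MP_d8ab80_nt.In.St

/-! Change of the Frobenius lift. -/

namespace Pool.Agent.MP_d8ab80_nt.In

open PowerSeries

variable (p : ℕ) [hp : Fact p.Prime]

theorem mono_PC {a b : ℤ_[p]⟦X⟧} (h : (p : ℤ_[p]⟦X⟧) ∣ a - b) (m j : ℕ) :
    (p : ℤ_[p]) * (j + 1) ∣ coeff j (a ^ m * d⁄dX ℤ_[p] a - b ^ m * d⁄dX ℤ_[p] b) := by
  obtain ⟨v, u, hu, hm⟩ := Nat.exists_eq_pow_mul_and_not_dvd (Nat.succ_ne_zero m) p hp.1.ne_one
  have h1 : (p : ℤ_[p]⟦X⟧) ^ (v + 1) ∣ a ^ (m + 1) - b ^ (m + 1) := by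
    refine (dvd_sub_pow_of_dvd_sub h v).trans ?_
    rw [show m + 1 = p ^ v * u from hm, pow_mul, pow_mul]
    exact sub_dvd_pow_sub_pow _ _ _
  obtain ⟨z, hz⟩ := h1
  have h2 : d⁄dX ℤ_[p] (a ^ (m + 1) - b ^ (m + 1)) =
      C ((m : ℤ_[p]) + 1) * (a ^ m * d⁄dX ℤ_[p] a - b ^ m * d⁄dX ℤ_[p] b) := by
    rw [map_sub, d_pow, d_pow, map_add, map_natCast, map_one]; ring
  have h3 := congrArg (coeff j) h2
  have h4 : (p : ℤ_[p]⟦X⟧) ^ (v + 1) = C ((p : ℤ_[p]) ^ (v + 1)) := by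
    rw [map_pow, map_natCast]
  rw [coeff_derivative, coeff_C_mul, hz, h4, coeff_C_mul] at h3
  have h5 : (m : ℤ_[p]) + 1 = (p : ℤ_[p]) ^ v * u := by exact_mod_cast congrArg (Nat.cast (R := ℤ_[p])) hm
  have hp0 : (p : ℤ_[p]) ^ v ≠ 0 := pow_ne_zero _ (Nat.cast_ne_zero.2 hp.1.ne_zero)
  rw [← (unit_nat p hu).dvd_mul_left]
  refine ⟨coeff (j + 1) z, mul_left_cancel₀ hp0 ?_⟩
  rw [h5] at h3
  linear_combination -h3

theorem poly_PC {a b : ℤ_[p]⟦X⟧} (h : (p : ℤ_[p]⟦X⟧) ∣ a - b) (P : Polynomial ℤ_[p]) (j : ℕ) :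
    (p : ℤ_[p]) * (j + 1) ∣ coeff j (Polynomial.aeval a P * d⁄dX ℤ_[p] a -
      Polynomial.aeval b P * d⁄dX ℤ_[p] b) := by
  induction P using Polynomial.induction_on' with
  | add P Q hP hQ =>
    have := dvd_add hP hQ
    rw [← map_add] at this
    rw [map_add, map_add]
    refine (dvd_iff_dvd_of_dvd_sub ?_).1 this
    rw [← map_sub]
    refine ⟨0, ?_⟩
    rw [mul_zero, ← map_zero (coeff (R := ℤ_[p]) j)]
    exact congrArg _ (by ring)
  | monomial m c =>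
    rw [Polynomial.aeval_monomial, Polynomial.aeval_monomial, PowerSeries.algebraMap_apply,
      Algebra.algebraMap_self_apply, mul_assoc, mul_assoc, ← mul_sub, coeff_C_mul]
    exact (mono_PC p h m j).mul_left _

theorem trunc_PC (h2 : ¬ p ∣ 2) (c d : ℤ_[p]) (N : ℕ) : ∃ F : Polynomial ℤ_[p],
    ∀ a g : ℤ_[p]⟦X⟧, constantCoeff a = 0 → constantCoeff g = 1 →
      Polynomial.aeval (C d * a ^ 2) (qq c) * g ^ 2 = 1 → X ^ (N + 1) ∣ Polynomial.aeval a F - g := by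
  obtain ⟨G, hG0, hG⟩ := exists_root_inv p h2 (Polynomial.aeval (C d * X ^ 2 : ℤ_[p]⟦X⟧) (qq c))
    (by rw [aeval_qq]; simp)
  have hF : (X : ℤ_[p]⟦X⟧) ^ (N + 1) ∣ (trunc (N + 1) G : ℤ_[p]⟦X⟧) - G := by
    rw [X_pow_dvd_iff]
    intro m hm
    rw [map_sub, Polynomial.coeff_coe, coeff_trunc, if_pos hm, sub_self]
  have hQ : (Polynomial.X : Polynomial ℤ_[p]) ^ (N + 1) ∣
      (qq c).comp (Polynomial.C d * Polynomial.X ^ 2) * trunc (N + 1) G ^ 2 - 1 := by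
    have h1 : (((qq c).comp (Polynomial.C d * Polynomial.X ^ 2) * trunc (N + 1) G ^ 2 - 1 :
        Polynomial ℤ_[p]) : ℤ_[p]⟦X⟧) = ((trunc (N + 1) G : ℤ_[p]⟦X⟧) - G) *
          (Polynomial.aeval (C d * X ^ 2 : ℤ_[p]⟦X⟧) (qq c) * ((trunc (N + 1) G : ℤ_[p]⟦X⟧) + G)) := by
      have h3 : (((qq c).comp (Polynomial.C d * Polynomial.X ^ 2) : Polynomial ℤ_[p]) : ℤ_[p]⟦X⟧) =
          Polynomial.aeval (C d * X ^ 2 : ℤ_[p]⟦X⟧) (qq c) := by
        have h4 : ((4 : Polynomial ℤ_[p]) : ℤ_[p]⟦X⟧) = 4 :=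
          map_ofNat (Polynomial.coeToPowerSeries.ringHom (R := ℤ_[p])) 4
        rw [aeval_qq]
        simp [qq, h4]
      rw [Polynomial.coe_sub, Polynomial.coe_mul, Polynomial.coe_pow, Polynomial.coe_one, h3]
      linear_combination hG
    have h4 := hF.mul_right (Polynomial.aeval (C d * X ^ 2 : ℤ_[p]⟦X⟧) (qq c) *
      ((trunc (N + 1) G : ℤ_[p]⟦X⟧) + G))
    rw [← h1, X_pow_dvd_iff] at h4
    rw [Polynomial.X_pow_dvd_iff]
    intro m hm
    rw [← Polynomial.coeff_coe]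
    exact h4 m hm
  refine ⟨trunc (N + 1) G, fun a g ha hg0 hg => root_dvd ?_ ?_ hg⟩
  · rw [cc_aeval ha, coeff_trunc, if_pos (Nat.succ_pos N), coeff_zero_eq_constantCoeff_apply, hG0,
      hg0, one_add_one_eq_two]
    exact_mod_cast unit_nat p h2
  · have h5 := map_dvd (Polynomial.aeval a) hQ
    rw [map_pow, Polynomial.aeval_X, map_sub, map_mul, map_pow, map_one, Polynomial.aeval_comp,
      map_mul, map_pow, Polynomial.aeval_X, aeval_C'] at h5
    exact (pow_dvd_pow_of_dvd (X_dvd_iff.2 ha) _).trans h5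

theorem cong_PC {f g : ℤ_[p]⟦X⟧} {N : ℕ} (h : X ^ (N + 1) ∣ f - g) (u : ℤ_[p]⟦X⟧) :
    coeff N (u * f) = coeff N (u * g) := by
  have := h.mul_left u
  rw [X_pow_dvd_iff] at this
  rw [← sub_eq_zero, ← map_sub, ← mul_sub]
  exact this N (Nat.lt_succ_self N)

theorem pc : PCSt p := by
  intro n c d χ s iw IW hn hs hχ hd hP e k
  have hp0 : p ≠ 0 := hp.1.ne_zero
  have h2 : ¬ p ∣ 2 := fun h => by
    have := (Nat.prime_dvd_prime_iff_eq hp.1 Nat.prime_two).1 h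
    omega
  obtain ⟨F, hF⟩ := trunc_PC p h2 c d (p * k + 2 * n)
  have hχC : (C χ : ℤ_[p]⟦X⟧) ^ 2 = 1 := by rw [← map_pow, hχ, map_one]
  have hx : C d * (C (χ * d ^ n) * s ^ p) ^ 2 = (C d * s ^ 2) ^ p := by
    rw [map_mul, map_pow, mul_pow, mul_pow, hχC, mul_pow, ← pow_mul, ← pow_mul, ← pow_mul,
      mul_comm p 2, show C d ^ p = C d ^ (n * 2) * C d by rw [← pow_succ]; exact congrArg _ (by omega)]
    ring
  have hx0 : C d * expand p hp0 s ^ 2 = expand p hp0 (C d * s ^ 2) := by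
    rw [map_mul, map_pow, expand_C]
  have h1 := hF (C (χ * d ^ n) * s ^ p) IW (by simp [hs, hp0]) hP.IW0 (by rw [hx]; exact hP.hIW)
  have h0 := hF (expand p hp0 s) (expand p hp0 iw) (by rw [constantCoeff_expand, hs])
    (by rw [constantCoeff_expand, hP.iw0]) (by
      have := congrArg (expand p hp0) hP.hiw
      rw [map_mul, map_pow, map_one, ← Polynomial.aeval_algHom_apply] at this
      rw [hx0]; exact this)
  have hab : (p : ℤ_[p]⟦X⟧) ∣ C (χ * d ^ n) * s ^ p - expand p hp0 s := by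
    have h3 : PadicInt.toZMod (χ * d ^ n) = (1 : ZMod p) := by
      rw [← map_one (PadicInt.toZMod (p := p)), ← sub_eq_zero, ← map_sub, toZMod_eq_zero,
        show χ * d ^ n - 1 = χ * (d ^ n - χ) by linear_combination hχ]
      exact hd.mul_left _
    obtain ⟨z, hz⟩ := series_lift PadicInt.toZMod toZMod_eq_zero
      (f := C (χ * d ^ n) * s ^ p) (g := expand p hp0 s) (by
        rw [map_expand_zmod, map_mul, map_pow, map_C, h3, map_one, one_mul])
    exact ⟨z, by rw [hz, map_natCast]; ring⟩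
  have h4 := poly_PC p hab ((Polynomial.C d * Polynomial.X ^ 2) ^ e * F) (p * k + 2 * n)
  have e1 : Polynomial.aeval (C (χ * d ^ n) * s ^ p) ((Polynomial.C d * Polynomial.X ^ 2) ^ e * F) *
      d⁄dX ℤ_[p] (C (χ * d ^ n) * s ^ p) =
      C (p * χ) * (d⁄dX ℤ_[p] s * (C d * s ^ 2) ^ (n + e * p)) *
        Polynomial.aeval (C (χ * d ^ n) * s ^ p) F := by
    have h5 : d⁄dX ℤ_[p] (C (χ * d ^ n) * s ^ p) = C (p * χ) * (d⁄dX ℤ_[p] s * (C d * s ^ 2) ^ n) := by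
      rw [d_mul, derivative_C, zero_mul, zero_add, derivative_pow,
        show p - 1 = 2 * n by omega, map_mul, map_mul, map_natCast, map_pow, mul_pow, ← pow_mul]
      ring
    rw [h5, map_mul (Polynomial.aeval _), map_pow (Polynomial.aeval _), map_mul (Polynomial.aeval _),
      map_pow (Polynomial.aeval _), Polynomial.aeval_X, aeval_C', hx, pow_add, mul_comm e p,
      pow_mul]
    ring
  have e0 : Polynomial.aeval (expand p hp0 s) ((Polynomial.C d * Polynomial.X ^ 2) ^ e * F) *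
      d⁄dX ℤ_[p] (expand p hp0 s) =
      C (p : ℤ_[p]) * X ^ (2 * n) * expand p hp0 (d⁄dX ℤ_[p] s * (C d * s ^ 2) ^ e) *
        Polynomial.aeval (expand p hp0 s) F := by
    rw [d_expand' hn hp0, map_mul (Polynomial.aeval _), map_pow (Polynomial.aeval _),
      map_mul (Polynomial.aeval _), map_pow (Polynomial.aeval _), Polynomial.aeval_X, aeval_C', hx0,
      map_mul (expand p hp0) (d⁄dX ℤ_[p] s), map_pow (expand p hp0) _ e]
    ring
  rw [map_sub, e1, e0, cong_PC p h1, cong_PC p h0, mul_assoc (C _), coeff_C_mul,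
    mul_assoc (C _ * _), mul_assoc (C _), coeff_C_mul, ← map_mul, coeff_X_pow_mul,
    coeff_expand_mul] at h4
  have h6 : ((p * k + 2 * n : ℕ) : ℤ_[p]) + 1 = p * (k + 1) := by
    have : p * k + 2 * n + 1 = p * (k + 1) := by rw [mul_add, mul_one]; omega
    exact_mod_cast congrArg (Nat.cast (R := ℤ_[p])) this
  rw [h6, mul_assoc _ χ, ← mul_sub, mul_dvd_mul_iff_left (Nat.cast_ne_zero.2 hp0)] at h4
  have h7 := h4.mul_left χ
  rwa [mul_sub, ← mul_assoc χ χ, ← pow_two, hχ, one_mul] at h7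

end Pool.Agent.MP_d8ab80_nt.In
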