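import Pool.Agent.MP_d8ab80_nt.In.St

namespace Pool.Agent.MP_d8ab80_nt.In

open PowerSeries

theorem dC_Rel {A : Type*} [CommRing A] (a : A) (f : A⟦X⟧) :
    d⁄dX A (C a * f) = C a * d⁄dX A f := by
  rw [← smul_eq_C_mul, ← smul_eq_C_mul, Derivation.map_smul]

theorem deg_qq_Rel {A : Type*} [CommRing A] (c : A) : (qq c).natDegree ≤ 2 := by
  unfold qq
  compute_degree

theorem deg_E_Rel {A : Type*} [CommRing A] (c : A) (p : ℕ) :
    (Polynomial.expand A p (Polynomial.X * Polynomial.derivative (qq c))).natDegree ≤ 2 * p := by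
  rw [Polynomial.natDegree_expand]
  refine Nat.mul_le_mul_right p (Polynomial.natDegree_mul_le.trans ?_)
  have h1 := Polynomial.natDegree_derivative_le (qq c)
  have h2 := deg_qq_Rel c
  have h3 := Polynomial.natDegree_X_le (R := A)
  omega

theorem aC_Rel {A : Type*} [CommRing A] (a : A) (x : A⟦X⟧) :
    Polynomial.aeval x (Polynomial.C a) = C a := by
  simp

variable (p : Nat) [hp : Fact p.Prime]

theorem rel (h1 : DecSt p) (h2 : RedSt p) (h3 : SerSt p) : RelSt p := by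
  intro n c hn hp3 hc hc4
  have u2 : IsUnit (2 : ℤ_[p]) := by
    simpa using unit_nat p (k := 2) fun h => by have := Nat.le_of_dvd two_pos h; omega
  have u3 : IsUnit (3 : ℤ_[p]) := by
    simpa using unit_nat p (k := 3) fun h => by have := Nat.le_of_dvd three_pos h; omega
  obtain ⟨r1, r2⟩ := h2 c u2 u3 hc4
  obtain ⟨R₁, R₂, hR₁, hR₂, hR⟩ := h3.f3 c n hn
  have hE := deg_E_Rel c p
  set E := Polynomial.expand ℤ_[p] p (Polynomial.X * Polynomial.derivative (qq c)) with hEd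
  obtain ⟨N₀, b₀, hN₀, hb₀, e₀⟩ := h1 n hn (qq c ^ n) 0 (by
    have h4 := Polynomial.natDegree_pow_le (p := qq c) (n := n)
    have h5 := Nat.mul_le_mul_left n (deg_qq_Rel c)
    omega)
  obtain ⟨N₁, b₁, hN₁, hb₁, e₁⟩ := h1 n hn (b₀ * E + R₁) 2 (by
    have h4 := Polynomial.natDegree_add_le (b₀ * E) R₁
    have h5 := Polynomial.natDegree_mul_le (p := b₀) (q := E)
    omega)
  obtain ⟨N₂, b₂, hN₂, -, e₂⟩ := h1 n hn (Polynomial.C 3 * (b₁ * E) + R₂) 4 (by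
    have h4 := Polynomial.natDegree_add_le (Polynomial.C 3 * (b₁ * E)) R₂
    have h5 := Polynomial.natDegree_mul_le (p := b₁) (q := E)
    have h6 := Polynomial.natDegree_C_mul_le (3 : ℤ_[p]) (b₁ * E)
    omega)
  obtain ⟨x₁, y₁, g₁, e₃⟩ := r1 N₁ hN₁
  obtain ⟨N₃, h, hN₃, e₄⟩ := r2 hc N₂ hN₂
  obtain ⟨x₂, y₂, g₂, e₅⟩ := r1 N₃ hN₃
  obtain ⟨A₀, rfl⟩ : ∃ A₀, N₀ = Polynomial.C A₀ :=
    ⟨_, Polynomial.eq_C_of_natDegree_le_zero hN₀⟩
  refine ⟨A₀ + p * x₁ + p ^ 2 * x₂, y₁ + p * y₂, b₀ + Polynomial.C g₁ * Polynomial.X ^ n, ?_,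
    fun s x iw IW hP => ?_⟩
  · have h4 := Polynomial.natDegree_add_le b₀ (Polynomial.C g₁ * Polynomial.X ^ n)
    have h5 := Polynomial.natDegree_C_mul_X_pow_le g₁ n
    omega
  obtain ⟨K, hK⟩ := hR s x iw IW hP
  have a0 := h3.f1 c s x iw IW hP 0 b₀
  have a1 := h3.f1 c s x iw IW hP 2 b₁
  have a2 := h3.f1 c s x iw IW hP 4 b₂
  have c1 := h3.f2 c s x iw IW hP n hn 0 (Polynomial.C g₁ - Polynomial.C y₁ * Polynomial.X)
  have c2 := h3.f2 c s x iw IW hP n hn 0 (Polynomial.C g₂ - Polynomial.C y₂ * Polynomial.X)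
  have c3 := h3.f2 c s x iw IW hP n hn 2 h
  have hW := hP.hIW
  have d₀ := congrArg (Polynomial.aeval x) e₀
  have d₁ := congrArg (Polynomial.aeval x) e₁
  have d₂ := congrArg (Polynomial.aeval x) e₂
  have d₃ := congrArg (Polynomial.aeval (x ^ p)) e₃
  have d₄ := congrArg (Polynomial.aeval (x ^ p)) e₄
  have d₅ := congrArg (Polynomial.aeval (x ^ p)) e₅
  rw [← hEd] at a0 a1 a2
  rw [map_add, map_mul, map_pow (Polynomial.aeval x) Polynomial.X, Polynomial.aeval_X,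
    Polynomial.expand_aeval, aC_Rel] at d₀
  rw [map_add, map_add, map_mul (Polynomial.aeval x) (Polynomial.X ^ n), map_pow,
    Polynomial.aeval_X, Polynomial.expand_aeval] at d₁
  rw [map_add, map_add, map_mul (Polynomial.aeval x) (Polynomial.X ^ n), map_pow,
    Polynomial.aeval_X, Polynomial.expand_aeval, map_mul, aC_Rel] at d₂
  rw [map_add, map_mul, map_add, map_mul, aC_Rel, aC_Rel, Polynomial.aeval_X] at d₃ d₅
  rw [map_add, map_mul] at d₄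
  refine ⟨s * Polynomial.aeval x b₁ * IW ^ (2 + 1) +
      C (p : ℤ_[p]) * (s * Polynomial.aeval x b₂ * IW ^ (4 + 1)) +
      s * x ^ n * Polynomial.aeval (x ^ p) h * IW ^ (2 + 1) + C g₂ * (s * x ^ n * IW),
    5 * (d⁄dX ℤ_[p] s * Polynomial.aeval x (b₂ * E) * IW ^ 7) + d⁄dX ℤ_[p] s * K, ?_⟩
  have harg : s * Polynomial.aeval x (b₀ + Polynomial.C g₁ * Polynomial.X ^ n) * IW -
      C (y₁ + p * y₂) * (s * x ^ (n + p) * IW) + C (p : ℤ_[p]) *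
      (s * Polynomial.aeval x b₁ * IW ^ (2 + 1) +
        C (p : ℤ_[p]) * (s * Polynomial.aeval x b₂ * IW ^ (4 + 1)) +
        s * x ^ n * Polynomial.aeval (x ^ p) h * IW ^ (2 + 1) + C g₂ * (s * x ^ n * IW)) =
      s * Polynomial.aeval x b₀ * IW ^ (0 + 1) +
      s * x ^ n * Polynomial.aeval (x ^ p)
        (Polynomial.C g₁ - Polynomial.C y₁ * Polynomial.X) * IW ^ (0 + 1) +
      C (p : ℤ_[p]) * (s * Polynomial.aeval x b₁ * IW ^ (2 + 1)) +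
      C (p : ℤ_[p]) * (C (p : ℤ_[p]) * (s * Polynomial.aeval x b₂ * IW ^ (4 + 1))) +
      C (p : ℤ_[p]) * (s * x ^ n * Polynomial.aeval (x ^ p) h * IW ^ (2 + 1)) +
      C (p : ℤ_[p]) * (s * x ^ n * Polynomial.aeval (x ^ p)
        (Polynomial.C g₂ - Polynomial.C y₂ * Polynomial.X) * IW ^ (0 + 1)) := by
    simp only [map_add, map_sub, map_mul, map_pow, aC_Rel, Polynomial.aeval_X]
    ring
  rw [harg, map_add (d⁄dX ℤ_[p]), map_add (d⁄dX ℤ_[p]), map_add (d⁄dX ℤ_[p]),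
    map_add (d⁄dX ℤ_[p]), map_add (d⁄dX ℤ_[p]), dC_Rel, dC_Rel, dC_Rel, dC_Rel, dC_Rel,
    ← c1, ← c2, ← c3, ← sub_eq_iff_eq_add.2 a0, ← sub_eq_iff_eq_add.2 a1,
    ← sub_eq_iff_eq_add.2 a2, hK]
  simp only [map_add, map_mul (C (R := ℤ_[p])), map_pow (C (R := ℤ_[p])), Nat.cast_ofNat,
    Nat.cast_zero, map_zero, map_one, map_ofNat] at d₂ ⊢
  generalize C (p : ℤ_[p]) = P
  linear_combination (d⁄dX ℤ_[p] s * IW) * d₀ + (P * d⁄dX ℤ_[p] s * IW ^ 3) * d₁ +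
    (P ^ 2 * d⁄dX ℤ_[p] s * IW ^ 5) * d₂ + (P * d⁄dX ℤ_[p] s * x ^ n * IW ^ 3) * d₃ +
    (P ^ 2 * d⁄dX ℤ_[p] s * x ^ n * IW ^ 5) * d₄ +
    (P ^ 2 * d⁄dX ℤ_[p] s * x ^ n * IW ^ 3) * d₅ +
    (P * d⁄dX ℤ_[p] s * x ^ n * IW * (C x₁ + C y₁ * x ^ p) +
      P ^ 2 * d⁄dX ℤ_[p] s * x ^ n * IW ^ 3 * Polynomial.aeval (x ^ p) N₃ +
      P ^ 2 * d⁄dX ℤ_[p] s * x ^ n * IW * (C x₂ + C y₂ * x ^ p)) * hW

end Pool.Agent.MP_d8ab80_nt.In
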