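import Pool.Agent.MP_d8ab80_nt.In.St

namespace Pool.Agent.MP_d8ab80_nt.In

open PowerSeries

variable (p : Nat) [hp : Fact p.Prime]

section

variable {p} {c : ℤ_[p]} {s x iw IW : ℤ_[p]⟦X⟧}

theorem pow_Ser (h : Par p c s x iw IW) (n : ℕ) :
    s * d⁄dX ℤ_[p] (x ^ n) = 2 * n * x ^ n * d⁄dX ℤ_[p] s := by
  rcases n with _ | n
  · simp
  · rw [d_pow]
    push_cast
    linear_combination ((n : ℤ_[p]⟦X⟧) + 1) * x ^ n * h.dx

theorem iw_Ser (h : Par p c s x iw IW) : s * d⁄dX ℤ_[p] IW =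
    -(p * x ^ p * Polynomial.aeval (x ^ p) (Polynomial.derivative (qq c)) * IW ^ 3 *
      d⁄dX ℤ_[p] s) := by
  have h1 := congrArg (d⁄dX ℤ_[p]) h.hIW
  rw [d_mul, d_sq, d_aeval, Derivation.map_one_eq_zero] at h1
  have h2 : (2 : ℤ_[p]⟦X⟧) ≠ 0 := fun e => by
    simpa [map_ofNat] using congrArg constantCoeff e
  refine mul_left_cancel₀ h2 ?_
  linear_combination s * IW * h1 - 2 * s * d⁄dX ℤ_[p] IW * h.hIW -
    Polynomial.aeval (x ^ p) (Polynomial.derivative (qq c)) * IW ^ 3 * pow_Ser h p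

theorem deg_Ser (c : ℤ_[p]) : (qq c).natDegree ≤ 2 := by
  unfold qq
  compute_degree

end

theorem ser : SerSt p := by
  refine ⟨fun c s x iw IW h k b => ?_, fun c s x iw IW h n hn k g => ?_, fun c n hn => ?_⟩
  · rw [d_mul, d_mul, d_pow, d_aeval]
    simp only [th, map_add, map_mul, map_natCast, map_one, map_ofNat, Polynomial.aeval_X,
      Polynomial.expand_aeval, Polynomial.expand_X, map_pow]
    linear_combination -Polynomial.aeval x (Polynomial.derivative b) * IW ^ (k + 1) * h.dx -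
      Polynomial.aeval x b * ((k : ℤ_[p]⟦X⟧) + 1) * IW ^ k * iw_Ser h
  · have h1 : (p : ℤ_[p]⟦X⟧) = 2 * n + 1 := by exact_mod_cast congrArg (Nat.cast (R := ℤ_[p]⟦X⟧)) hn
    rw [d_mul, d_mul, d_mul, d_pow, d_aeval]
    simp only [thk, th, map_add, map_sub, map_mul, map_natCast, map_ofNat, Polynomial.aeval_X]
    push_cast
    linear_combination -Polynomial.aeval (x ^ p) g * IW ^ (k + 1) * pow_Ser h n -
      x ^ n * Polynomial.aeval (x ^ p) (Polynomial.derivative g) * IW ^ (k + 1) * pow_Ser h p -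
      x ^ n * Polynomial.aeval (x ^ p) g * ((k : ℤ_[p]⟦X⟧) + 1) * IW ^ k * iw_Ser h +
      p * d⁄dX ℤ_[p] s * x ^ n * (Polynomial.aeval (x ^ p) g +
        2 * x ^ p * Polynomial.aeval (x ^ p) (Polynomial.derivative g)) * IW ^ (k + 1) * h.hIW +
      d⁄dX ℤ_[p] s * x ^ n * Polynomial.aeval (x ^ p) g * IW ^ (k + 1) * h1
  · have h2 : IsUnit (2 : ℤ_[p]) := unit_nat p (k := 2) fun h => by
      have := (Nat.prime_dvd_prime_iff_eq hp.out Nat.prime_two).1 h
      omega
    obtain ⟨t, ht⟩ := h2.exists_right_inv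
    obtain ⟨R, hR⟩ := poly_lift PadicInt.toZMod toZMod_eq_zero (f := qq c ^ p)
      (g := Polynomial.expand ℤ_[p] p (qq c))
      (by rw [Polynomial.map_expand, ZMod.expand_card, Polynomial.map_pow])
    have hp0 : (p : ℤ_[p]) ≠ 0 := Nat.cast_ne_zero.2 hp.out.ne_zero
    have hq := deg_Ser c
    have hd : R.natDegree ≤ 2 * p := by
      rw [← Polynomial.natDegree_C_mul hp0, ← sub_eq_iff_eq_add'.2 hR]
      refine (Polynomial.natDegree_sub_le _ _).trans (max_le ?_ ?_)
      · exact Polynomial.natDegree_pow_le.trans (by nlinarith)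
      · rw [Polynomial.natDegree_expand]
        exact Nat.mul_le_mul_right _ hq
    have hn2 : (qq c ^ n).natDegree ≤ 2 * n := Polynomial.natDegree_pow_le.trans (by nlinarith)
    have hR2 : (R ^ 2).natDegree ≤ 4 * p := Polynomial.natDegree_pow_le.trans (by omega)
    have hq0 : (qq c).coeff 0 = 1 := by simp [qq]
    have hR0 : R.coeff 0 = 0 := by
      have := congrArg (fun P => Polynomial.coeff P 0) hR
      simpa [Polynomial.coeff_expand hp.out.pos, Polynomial.coeff_zero_eq_eval_zero, qq,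
        hp.out.ne_zero] using this
    refine ⟨Polynomial.C (-t) * (qq c ^ n * R), Polynomial.C (3 * t ^ 3) * (qq c ^ n * R ^ 2),
      ((Polynomial.natDegree_C_mul_le _ _).trans Polynomial.natDegree_mul_le).trans_lt (by omega),
      ((Polynomial.natDegree_C_mul_le _ _).trans Polynomial.natDegree_mul_le).trans_lt (by omega),
      fun s x iw IW h => ?_⟩
    have h3 := congrArg (Polynomial.aeval x) hR
    have h4 : (2 : ℤ_[p]⟦X⟧) * C t = 1 := by
      rw [← map_ofNat (C (R := ℤ_[p])) 2, ← map_mul, ht, map_one]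
    rw [map_add, map_mul, map_pow, Polynomial.expand_aeval, Polynomial.aeval_C,
      PowerSeries.algebraMap_apply, Algebra.algebraMap_self, RingHom.id_apply,
      show Polynomial.aeval x (qq c) ^ p = (Polynomial.aeval x (qq c) ^ n) ^ 2 *
        Polynomial.aeval x (qq c) by rw [← pow_mul, ← pow_succ, mul_comm n, ← hn]] at h3
    obtain ⟨e, he⟩ : ∃ e, e = C (p : ℤ_[p]) * Polynomial.aeval x R * IW ^ 2 := ⟨_, rfl⟩
    obtain ⟨K, hK⟩ := root_dvd (m := C ((p : ℤ_[p]) ^ 3))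
      (a := Polynomial.aeval x (qq c) ^ n * IW * (1 - C t * e + 3 * C t ^ 3 * e ^ 2))
      (by simpa [he, cc_aeval h.x0, hq0, hR0, h.IW0, h.iw0, one_add_one_eq_two] using h2)
      ⟨(Polynomial.aeval x R * IW ^ 2) ^ 3 * (C t ^ 2 + 6 * C t ^ 3 - 6 * C t ^ 4 +
        (9 * C t ^ 6 - 6 * C t ^ 4) * e + 9 * C t ^ 6 * e ^ 2), by
        rw [map_pow, ← mul_assoc, ← mul_pow, ← mul_assoc, ← he]
        linear_combination (1 - C t * e + 3 * C t ^ 3 * e ^ 2) ^ 2 * (IW ^ 2 * h3 + h.hIW - he) +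
          (-e + (3 * C t ^ 2 + 2 * C t) * e ^ 2) * h4⟩ h.hiw
    subst he
    refine ⟨-K, ?_⟩
    simp only [map_mul, map_pow, Polynomial.aeval_C, PowerSeries.algebraMap_apply, map_neg,
      map_ofNat, Algebra.algebraMap_self, RingHom.id_apply] at hK ⊢
    linear_combination -hK

end Pool.Agent.MP_d8ab80_nt.In
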