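import Pool.Agent.Mg.Fd8ab80.Gc511a3

/-! Statements of the steps for the sum modulo `p ^ 2` at inert primes. -/

namespace Pool.Agent.MP_d8ab80_nt.In

open PowerSeries

/-- The quadratic `1 - 4 X + c X ^ 2`. -/
noncomputable def qq {A : Type*} [CommRing A] (c : A) : Polynomial A :=
  1 - 4 * Polynomial.X + Polynomial.C c * Polynomial.X ^ 2

/-- The operator `b ↦ b + 2 X b'`. -/
noncomputable def th {A : Type*} [CommRing A] (b : Polynomial A) : Polynomial A :=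
  b + 2 * Polynomial.X * Polynomial.derivative b

/-- The numerator of the derivative of `s h / w ^ k`. -/
noncomputable def thk {A : Type*} [CommRing A] (c : A) (k : ℕ) (h : Polynomial A) : Polynomial A :=
  th h * qq c - (k : Polynomial A) * Polynomial.X * h * Polynomial.derivative (qq c)

theorem aeval_qq {A : Type*} [CommRing A] (c : A) (x : A⟦X⟧) :
    Polynomial.aeval x (qq c) = 1 - 4 * x + C c * x ^ 2 := by
  simp [qq, PowerSeries.algebraMap_apply, map_ofNat]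

/-- Two inverse square roots agree modulo `m`. -/
theorem root_dvd {A : Type*} [CommRing A] {f a b m : A⟦X⟧}
    (hu : IsUnit (constantCoeff a + constantCoeff b)) (ha : m ∣ f * a ^ 2 - 1)
    (hb : f * b ^ 2 = 1) : m ∣ a - b := by
  have h1 : IsUnit (a + b) := by
    rw [PowerSeries.isUnit_iff_constantCoeff, map_add]; exact hu
  have h2 : IsUnit f := IsUnit.of_mul_eq_one _ hb
  rw [← (h1.mul h2).dvd_mul_left, show (a + b) * f * (a - b) = f * a ^ 2 - 1 by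
    linear_combination -hb]
  exact ha

variable (p : ℕ) [hp : Fact p.Prime]

theorem unit_nat {k : ℕ} (h : ¬ p ∣ k) : IsUnit (k : ℤ_[p]) := by
  obtain ⟨v, hv⟩ := exists_inv_int (p := p) (u := k) (by exact_mod_cast h)
  exact IsUnit.of_mul_eq_one v (by exact_mod_cast hv)

/-- Inverse roots of series with constant term one. -/
theorem exists_root_inv {k : ℕ} (hk : ¬ p ∣ k) (f : ℤ_[p]⟦X⟧) (hf : constantCoeff f = 1) :
    ∃ g : ℤ_[p]⟦X⟧, constantCoeff g = 1 ∧ f * g ^ k = 1 := by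
  obtain ⟨v, hv⟩ := (unit_nat p hk).exists_right_inv
  have hs : HasSubst (f - 1) := HasSubst.of_constantCoeff_zero' (by simp [hf])
  have hpow : ∀ (r : ℤ_[p]) (j : ℕ),
      binomialSeries ℤ_[p] r ^ j = binomialSeries ℤ_[p] ((j : ℤ_[p]) * r) := by
    intro r j
    induction j with
    | zero => simp [binomialSeries_zero]
    | succ j ih => rw [pow_succ, ih, ← binomialSeries_add]; congr 1; push_cast; ring
  have h1 : (1 + X) * binomialSeries ℤ_[p] (-v) ^ k = 1 := by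
    have := binomialSeries_nat (R := ℤ_[p]) (A := ℤ_[p]) 1
    rw [pow_one] at this
    rw [hpow, ← this, ← binomialSeries_add, mul_neg, hv, Nat.cast_one, add_neg_cancel,
      binomialSeries_zero]
  obtain ⟨u, hu⟩ : (X : ℤ_[p]⟦X⟧) ∣ binomialSeries ℤ_[p] (-v) - 1 := by
    rw [X_dvd_iff]; simp
  refine ⟨substAlgHom hs (binomialSeries ℤ_[p] (-v)), ?_, ?_⟩
  · rw [show binomialSeries ℤ_[p] (-v) = 1 + X * u by rw [← hu]; ring, map_add, map_mul, map_one,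
      substAlgHom_X]
    simp [hf]
  · have := congrArg (substAlgHom hs) h1
    rw [map_mul, map_add, map_one, map_pow, substAlgHom_X] at this
    simpa using this

/-- The series in a parameter: `x` behaves like a multiple of `s ^ 2`, `iw` and `IW` are the inverse
square roots of `qq` at `x` and at `x ^ p`. -/
structure Par (c : ℤ_[p]) (s x iw IW : ℤ_[p]⟦X⟧) : Prop where
  x0 : constantCoeff x = 0
  dx : s * d⁄dX ℤ_[p] x = 2 * x * d⁄dX ℤ_[p] s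
  hiw : Polynomial.aeval x (qq c) * iw ^ 2 = 1
  iw0 : constantCoeff iw = 1
  hIW : Polynomial.aeval (x ^ p) (qq c) * IW ^ 2 = 1
  IW0 : constantCoeff IW = 1

/-- The relation between the differential and its Frobenius transform, modulo `p ^ 3`. -/
def Rel (n : ℕ) (α β : ℤ_[p]) (b : Polynomial ℤ_[p]) (s x iw IW : ℤ_[p]⟦X⟧) : Prop :=
  ∃ G K : ℤ_[p]⟦X⟧, d⁄dX ℤ_[p] s * iw =
    C α * (d⁄dX ℤ_[p] s * x ^ n * IW) + C (p * β) * (d⁄dX ℤ_[p] s * x ^ (n + p) * IW) +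
      d⁄dX ℤ_[p] (s * Polynomial.aeval x b * IW - C β * (s * x ^ (n + p) * IW) + C (p : ℤ_[p]) * G) +
      C ((p : ℤ_[p]) ^ 3) * K

/-- Splitting a polynomial into a Frobenius part and an exact part. -/
def DecSt : Prop := ∀ n : ℕ, p = 2 * n + 1 → ∀ (M : Polynomial ℤ_[p]) (e : ℕ),
  M.natDegree < (e + 1) * p → ∃ N b : Polynomial ℤ_[p], N.natDegree ≤ e ∧
    b.natDegree < (e + 1) * p ∧ M = Polynomial.X ^ n * Polynomial.expand ℤ_[p] p N + th b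

/-- Reduction of the pole order. -/
def RedSt : Prop := ∀ c : ℤ_[p], IsUnit (2 : ℤ_[p]) → IsUnit (3 : ℤ_[p]) → IsUnit (c - 4) →
  (∀ N : Polynomial ℤ_[p], N.natDegree ≤ 2 → ∃ x y h : ℤ_[p],
    N = (Polynomial.C x + Polynomial.C y * Polynomial.X) * qq c +
      thk c 1 (Polynomial.C h - Polynomial.C y * Polynomial.X)) ∧
  (IsUnit c → ∀ N : Polynomial ℤ_[p], N.natDegree ≤ 4 → ∃ N₁ h : Polynomial ℤ_[p],
    N₁.natDegree ≤ 2 ∧ N = N₁ * qq c + thk c 3 h)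

/-- The three facts about series. -/
structure SerSt : Prop where
  f1 : ∀ (c : ℤ_[p]) (s x iw IW : ℤ_[p]⟦X⟧), Par p c s x iw IW → ∀ (k : ℕ) (b : Polynomial ℤ_[p]),
    d⁄dX ℤ_[p] s * Polynomial.aeval x (th b) * IW ^ (k + 1) =
      d⁄dX ℤ_[p] (s * Polynomial.aeval x b * IW ^ (k + 1)) + C (((k : ℤ_[p]) + 1) * p) *
        (d⁄dX ℤ_[p] s * Polynomial.aeval x (b * Polynomial.expand ℤ_[p] p
          (Polynomial.X * Polynomial.derivative (qq c))) * IW ^ (k + 3))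
  f2 : ∀ (c : ℤ_[p]) (s x iw IW : ℤ_[p]⟦X⟧), Par p c s x iw IW → ∀ n : ℕ, p = 2 * n + 1 →
    ∀ (k : ℕ) (h : Polynomial ℤ_[p]),
    C (p : ℤ_[p]) * (d⁄dX ℤ_[p] s * x ^ n * Polynomial.aeval (x ^ p) (thk c (k + 1) h) *
      IW ^ (k + 3)) = d⁄dX ℤ_[p] (s * x ^ n * Polynomial.aeval (x ^ p) h * IW ^ (k + 1))
  f3 : ∀ (c : ℤ_[p]) (n : ℕ), p = 2 * n + 1 → ∃ R₁ R₂ : Polynomial ℤ_[p], R₁.natDegree < 3 * p ∧
    R₂.natDegree < 5 * p ∧ ∀ s x iw IW : ℤ_[p]⟦X⟧, Par p c s x iw IW → ∃ K : ℤ_[p]⟦X⟧,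
      iw = Polynomial.aeval x (qq c ^ n) * IW + C (p : ℤ_[p]) * (Polynomial.aeval x R₁ * IW ^ 3) +
        C ((p : ℤ_[p]) ^ 2) * (Polynomial.aeval x R₂ * IW ^ 5) + C ((p : ℤ_[p]) ^ 3) * K

/-- The relation holds in every parameter, with the same constants. -/
def RelSt : Prop := ∀ (n : ℕ) (c : ℤ_[p]), p = 2 * n + 1 → 3 < p → IsUnit c → IsUnit (c - 4) →
  ∃ (α β : ℤ_[p]) (b : Polynomial ℤ_[p]), b.natDegree ≤ 2 * n ∧
    ∀ s x iw IW : ℤ_[p]⟦X⟧, Par p c s x iw IW → Rel p n α β b s x iw IW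

/-- Change of the Frobenius lift. -/
def PCSt : Prop := ∀ (n : ℕ) (c d χ : ℤ_[p]) (s iw IW : ℤ_[p]⟦X⟧), p = 2 * n + 1 →
  constantCoeff s = 0 → χ ^ 2 = 1 → (p : ℤ_[p]) ∣ d ^ n - χ → Par p c s (C d * s ^ 2) iw IW →
  ∀ e k : ℕ, (p : ℤ_[p]) * (k + 1) ∣
    coeff (p * k + 2 * n) (d⁄dX ℤ_[p] s * (C d * s ^ 2) ^ (n + e * p) * IW) -
      χ * coeff k (d⁄dX ℤ_[p] s * (C d * s ^ 2) ^ e * iw)

/-- The sum in terms of the constants of the relation. -/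
def USt : Prop := ∀ (n : ℕ) (i α β : ℤ_[p]) (b : Polynomial ℤ_[p]), p = 2 * n + 1 → 3 < p →
  63 * i = 1 → b.natDegree ≤ 2 * n → (p : ℤ_[p]) ∣ α →
  (∀ s x iw IW : ℤ_[p]⟦X⟧, Par p (256 * i) s x iw IW → Rel p n α β b s x iw IW) →
  (p : ℤ_[p]) ^ 2 ∣
    4 * ∑ k ∈ Finset.range p, ((k.centralBinom : ℤ_[p]) * (2 * k).centralBinom) * i ^ k -
      (-1) ^ n * (4 * α + 2 * p * β)

/-- The coefficients of the powers of the inverse seventh root of `1 - X`. -/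
structure BinSt : Prop where
  one : ∀ r : ℤ_[p]⟦X⟧, p ≠ 7 → constantCoeff r = 1 → (1 - X) * r ^ 7 = 1 → ∀ b t j : ℕ, j < p →
    p ∣ b + 7 * t → (p : ℤ_[p]) ∣ coeff j (r ^ b) - (-1) ^ j * (t.choose j : ℤ_[p])
  three : ∀ r : ℤ_[p]⟦X⟧, constantCoeff r = 1 → (1 - X) * r ^ 7 = 1 → ∀ m : ℕ, p = 7 * m + 3 →
    3 < p → (p : ℤ_[p]) ^ 2 ∣ coeff (p * m + (3 * m + 1)) (r ^ 6) + p
  five : ∀ r : ℤ_[p]⟦X⟧, constantCoeff r = 1 → (1 - X) * r ^ 7 = 1 → ∀ m : ℕ, p = 7 * m + 5 →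
    (p : ℤ_[p]) ^ 2 ∣ coeff (p * m + (5 * m + 3)) (r ^ 5) - p
  six : ∀ r : ℤ_[p]⟦X⟧, constantCoeff r = 1 → (1 - X) * r ^ 7 = 1 → ∀ m : ℕ, p = 7 * m + 6 →
    (p : ℤ_[p]) ^ 2 ∣ coeff (p * m + (6 * m + 5)) (r ^ 3) + p

end Pool.Agent.MP_d8ab80_nt.In
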