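import Pool.Agent.MP_d8ab80_nt.In.St

/-! The sum in terms of the constants of the relation. -/

namespace Pool.Agent.MP_d8ab80_nt.In

open PowerSeries

variable (p : ℕ) [hp : Fact p.Prime]

theorem frob_US (f : ℤ_[p]⟦X⟧) :
    ∃ k, f ^ p = expand p hp.out.ne_zero f + C (p : ℤ_[p]) * k :=
  series_lift PadicInt.toZMod toZMod_eq_zero (by rw [map_expand_zmod, map_pow])

theorem psi_US {n : ℕ} (hn : p = 2 * n + 1) (h3 : 3 < p) {c : ℤ_[p]} {s x iw IW g g₁ : ℤ_[p]⟦X⟧}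
    (P : Par p c s x iw IW) (hiw : iw = (1 + X ^ 2) ^ 2 * g) (hg : g = 1 + X ^ 4 * g₁)
    (y : ℤ_[p]⟦X⟧) :
    ∃ t, Psi n (y * IW) = Psi n ((1 + X ^ 2) ^ (4 * n + 2) * y) + p * t := by
  obtain ⟨k, hk⟩ := frob_US p x
  obtain ⟨h, hh⟩ := frob_US p (1 + X ^ 2)
  have e1 := congrArg (expand p hp.out.ne_zero) P.hiw
  rw [aeval_qq] at e1
  simp only [map_mul, map_add, map_sub, map_pow, map_one, map_ofNat, expand_C] at e1
  have two : IsUnit (2 : ℤ_[p]) := by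
    have := unit_nat p (k := 2) fun e => by have := Nat.le_of_dvd two_pos e; omega
    exact_mod_cast this
  obtain ⟨l, hl⟩ : C (p : ℤ_[p]) ∣ expand p hp.out.ne_zero iw - IW := by
    refine root_dvd ?_ ?_ P.hIW
    · have : constantCoeff (expand p hp.out.ne_zero iw) = 1 := by
        rw [← coeff_zero_eq_constantCoeff_apply, coeff_expand]
        simp [P.iw0]
      rw [this, P.IW0, one_add_one_eq_two]
      exact two
    · rw [aeval_qq, hk]
      exact ⟨(-4 * k + C c * (2 * expand p hp.out.ne_zero x * k + C (p : ℤ_[p]) * k ^ 2)) *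
        expand p hp.out.ne_zero iw ^ 2, by linear_combination e1⟩
  have e2 : y * IW = y * expand p hp.out.ne_zero iw - C (p : ℤ_[p]) * (y * l) := by
    linear_combination (-y) * hl
  have e3 : y * expand p hp.out.ne_zero (1 + X ^ 2) ^ 2 = (1 + X ^ 2) ^ (4 * n + 2) * y -
      C (p : ℤ_[p]) * (y * h * (2 * expand p hp.out.ne_zero (1 + X ^ 2) + C (p : ℤ_[p]) * h)) := by
    rw [show 4 * n + 2 = p * 2 by omega, pow_mul, hh]
    ring
  rw [e2, Psi_sub, Psi_C, hiw, psi_expand_iw hn hg, e3, Psi_sub, Psi_C]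
  exact ⟨_, by rw [sub_sub, ← mul_add, sub_eq_add_neg, ← mul_neg]⟩

theorem us (h : PCSt p) : USt p := by
  intro n i α β b hn h3 hi hb hα hR
  obtain ⟨g₁, hg⟩ := g_one (64 * i)
  obtain ⟨ie, s, w, iw, ω, U⟩ := exists_udata _ (g_sq hi)
  have s0 := U.cc_s
  have x0 : constantCoeff (C (1 : ℤ_[p]) * s ^ 2) = 0 := by simp [s0]
  obtain ⟨IW, IW0, hIW⟩ := exists_root_inv p (k := 2)
    (fun e => by have := Nat.le_of_dvd two_pos e; omega)
    (Polynomial.aeval ((C (1 : ℤ_[p]) * s ^ 2) ^ p) (qq (256 * i)))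
    (by rw [aeval_qq]; simp [s0, hp.out.ne_zero])
  have P : Par p (256 * i) s (C 1 * s ^ 2) iw IW :=
    { x0 := x0
      dx := by rw [map_one, one_mul, d_sq]; ring
      hiw := by
        rw [aeval_qq, map_one, one_mul]
        linear_combination (w * iw + 1) * U.hw - iw ^ 2 * U.hQ
      iw0 := by rw [U.hiw, hg]; simp
      hIW := hIW
      IW0 := IW0 }
  have eω : d⁄dX ℤ_[p] s * iw = ω := by rw [U.ds, mul_assoc, U.hw, mul_one]
  have c0 : coeff 0 ω = 1 := by rw [U.hω, hg]; simp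
  have c2 : coeff 2 ω = -1 := by
    have : ω = 1 - X ^ 2 + X ^ 4 * ((1 - X ^ 2) * g₁) := by rw [U.hω, hg]; ring
    rw [this, map_add, coeff_X_pow_mul', if_neg (by omega), map_sub, coeff_X_pow, coeff_one]
    simp
  have ie0 : constantCoeff ie = 1 := by
    have := congrArg constantCoeff U.hie
    simpa using this
  have e0 : d⁄dX ℤ_[p] s * (C 1 * s ^ 2) ^ 0 * iw = ω := by rw [pow_zero, mul_one, eω]
  have e1 : d⁄dX ℤ_[p] s * (C 1 * s ^ 2) ^ 1 * iw = X ^ 2 * (ie ^ 2 * ω) := by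
    rw [← eω, map_one]
    linear_combination (d⁄dX ℤ_[p] s * iw * (s + X * ie)) * U.hs
  have c0' : coeff 0 (X ^ 2 * (ie ^ 2 * ω)) = 0 := by
    rw [coeff_X_pow_mul', if_neg (by omega)]
  have c2' : coeff 2 (X ^ 2 * (ie ^ 2 * ω)) = 1 := by
    rw [coeff_X_pow_mul', if_pos le_rfl, Nat.sub_self, coeff_zero_eq_constantCoeff_apply, map_mul,
      map_pow, ie0, ← coeff_zero_eq_constantCoeff_apply, c0]
    simp
  have pc := h n (256 * i) 1 1 s iw IW hn s0 (one_pow 2) (by simp) P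
  obtain ⟨a1, ha1⟩ := pc 0 0
  obtain ⟨a2, ha2⟩ := pc 0 2
  obtain ⟨a3, ha3⟩ := pc 1 0
  obtain ⟨a4, ha4⟩ := pc 1 2
  rw [e0, c0, mul_zero, zero_add, zero_mul, add_zero] at ha1
  rw [e0, c2, show p * 2 + 2 * n = 6 * n + 2 by omega, zero_mul, add_zero] at ha2
  rw [e1, c0', mul_zero, zero_add, one_mul p] at ha3
  rw [e1, c2', show p * 2 + 2 * n = 6 * n + 2 by omega, one_mul p] at ha4
  obtain ⟨t1, ht1⟩ := psi_US p hn h3 P U.hiw hg (s * Polynomial.aeval (C 1 * s ^ 2) b)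
  obtain ⟨t2, ht2⟩ := psi_US p hn h3 P U.hiw hg (s * (C 1 * s ^ 2) ^ (n + p))
  have q1 : Psi n ((1 + X ^ 2) ^ (4 * n + 2) * (s * Polynomial.aeval (C 1 * s ^ 2) b)) = 0 := by
    have db : (Polynomial.X * b.comp (Polynomial.X ^ 2)).natDegree ≤ 4 * n + 2 := by
      refine (Polynomial.natDegree_mul_le_of_le Polynomial.natDegree_X_le
        (Polynomial.natDegree_comp_le.trans (Nat.mul_le_mul hb
          (Polynomial.natDegree_X_pow_le 2)))).trans (by omega)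
    have := Psi_pal_aeval n U.hie _ db
    rwa [← U.hs, map_mul, Polynomial.aeval_comp, map_pow, Polynomial.aeval_X,
      ← one_mul (s ^ 2), ← map_one (C (R := ℤ_[p]))] at this
  have q2 : Psi n ((1 + X ^ 2) ^ (4 * n + 2) * (s * (C 1 * s ^ 2) ^ (n + p))) = -1 := by
    have e2 : (1 + X ^ 2) ^ (4 * n + 2) * (s * (C 1 * s ^ 2) ^ (n + p)) =
        X ^ (6 * n + 3) * ie ^ (2 * n + 1) := by
      have : ie ^ (4 * n + 2) * (1 + X ^ 2) ^ (4 * n + 2) = 1 := by rw [← mul_pow, U.hie, one_pow]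
      rw [map_one, one_mul, ← pow_mul, ← pow_succ', show 2 * (n + p) + 1 = 6 * n + 3 by omega, U.hs]
      linear_combination (X ^ (6 * n + 3) * ie ^ (2 * n + 1)) * this
    rw [e2, Psi, coeff_X_pow_mul', coeff_X_pow_mul', if_neg (by omega), if_pos le_rfl]
    simp [ie0]
  rw [q1] at ht1
  rw [q2] at ht2
  have L1 : Lam n (d⁄dX ℤ_[p] s * (C 1 * s ^ 2) ^ n * IW) = 4 + p * (3 * a1 - 3 * a2) := by
    rw [Lam]
    push_cast at ha1 ha2
    linear_combination 3 * ha1 - ha2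
  have L2 : Lam n (d⁄dX ℤ_[p] s * (C 1 * s ^ 2) ^ (n + p) * IW) = -1 + p * (3 * a3 - 3 * a4) := by
    rw [Lam]
    push_cast at ha3 ha4
    linear_combination 3 * ha3 - ha4
  obtain ⟨G, K, e⟩ := hR s _ iw IW P
  rw [eω] at e
  have m1 := congrArg (Lam n) e
  rw [Lam_add, Lam_add, Lam_add, Lam_C, Lam_C, Lam_C, Lam_d' hn, Psi_add, Psi_sub, Psi_C, Psi_C,
    ht1, ht2, L1, L2, U.hω] at m1
  obtain ⟨j₁, j₂, l₁, l₂, d₁, d₂, d₃, -, hL⟩ := exists_j (A := ℤ_[p]) hn (by omega)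
  rw [hL, coeff_Gs, coeff_Gs, pj_eq _ l₁, pj_eq _ l₂] at m1
  obtain ⟨u₃, m3⟩ := sum_interp hp.out d₁ d₂ d₃ i (fun _ => 1)
  simp only [one_mul] at m3
  have hn1 : ((-1 : ℤ_[p]) ^ n) ^ 2 = 1 := by rw [← pow_mul, mul_comm, pow_mul]; simp
  obtain ⟨α', rfl⟩ := hα
  refine ⟨u₃ + (-1) ^ n * (α' * (3 * a1 - 3 * a2) + β * (3 * a3 - 3 * a4) +
    3 * (t1 - β * t2 + Psi n G) + p * Lam n K), ?_⟩
  linear_combination m3 + (-1) ^ n * m1 -
    (3 * ∑ k ∈ Finset.range p, (bb j₁ k : ℤ_[p]) * (-(64 * i)) ^ k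
      + ∑ k ∈ Finset.range p, (bb j₂ k : ℤ_[p]) * (-(64 * i)) ^ k) * hn1

end Pool.Agent.MP_d8ab80_nt.In
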